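import Mathlib

set_option autoImplicit false

namespace Pool.Agent.QProd

universe u v

/-- The `R`-module `M` is of type `FP_n`: there is an exact sequence
`R^{k_n} → ⋯ → R^{k_1} → R^{k_0} → M → 0` with finite exponents (only the part of the data in
degrees at most `n` is used). -/
def IsFP (R : Type u) [Ring R] (n : ℕ) (M : Type v) [AddCommGroup M] [Module R M] : Prop :=
  ∃ (k : ℕ → ℕ) (e : (Fin (k 0) → R) →ₗ[R] M)
    (d : ∀ i, (Fin (k (i + 1)) → R) →ₗ[R] (Fin (k i) → R)),
    Function.Surjective e ∧ (1 ≤ n → LinearMap.range (d 0) = LinearMap.ker e) ∧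
      ∀ i, i + 2 ≤ n → LinearMap.range (d (i + 1)) = LinearMap.ker (d i)

/-- The group `G` is of type `FP_n` (over `ℤ`): the trivial module `ℤ` over the group ring `ℤ[G]` is
of type `FP_n`. -/
def TypeFP (n : ℕ) (G : Type u) [Group G] : Prop :=
  IsFP (MonoidAlgebra ℤ G) n (Representation.trivial ℤ G ℤ).asModule

/-- The group `G` is of type `F_n`, that is, it has a `K(G,1)` with finite `n`-skeleton, in its
standard algebraic form (Wall): every group is of type `F_0`, type `F_1` is finite generation, and
for `n ≥ 2` type `F_n` is finite presentability together with type `FP_n`. -/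
def TypeF (n : ℕ) (G : Type u) [Group G] : Prop :=
  match n with
  | 0 => True
  | 1 => Group.FG G
  | n + 2 => Group.IsFinitelyPresented G ∧ TypeFP (n + 2) G

end Pool.Agent.QProd
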