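import Mathlib
import Pool.Agent.QProd.FPDef

set_option autoImplicit false

namespace Pool.Agent.QProd

universe u v w

section Ring

variable {R : Type u} [Ring R]

theorem IsFP.mono {n m : ℕ} (h : m ≤ n) {M : Type v} [AddCommGroup M] [Module R M]
    (hM : IsFP R n M) : IsFP R m M := by
  obtain ⟨k, e, d, h1, h2, h3⟩ := hM
  exact ⟨k, e, d, h1, fun h' => h2 (h'.trans h), fun i hi => h3 i (hi.trans h)⟩

theorem IsFP.equiv {n : ℕ} {M : Type v} [AddCommGroup M] [Module R M] {M' : Type w}
    [AddCommGroup M'] [Module R M'] (f : M ≃ₗ[R] M') (hM : IsFP R n M) : IsFP R n M' := by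
  obtain ⟨k, e, d, h1, h2, h3⟩ := hM
  refine ⟨k, f.toLinearMap.comp e, d, f.surjective.comp h1, fun h => ?_, h3⟩
  rw [h2 h, LinearEquiv.ker_comp]

/-- the shifted exponents -/
def consNat (k : ℕ) (k' : ℕ → ℕ) : ℕ → ℕ
  | 0 => k
  | i + 1 => k' i

theorem isFP_zero_iff {M : Type v} [AddCommGroup M] [Module R M] :
    IsFP R 0 M ↔ Module.Finite R M := by
  constructor
  · rintro ⟨k, e, d, h1, h2, h3⟩
    exact Module.Finite.of_surjective e h1
  · intro h
    obtain ⟨k, f, hf⟩ := Module.Finite.exists_fin' R M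
    exact ⟨consNat k (fun _ => 0), f, fun _ => 0, hf, by omega, by omega⟩

theorem isFP_succ_iff {n : ℕ} {M : Type v} [AddCommGroup M] [Module R M] :
    IsFP R (n + 1) M ↔ ∃ (k : ℕ) (e : (Fin k → R) →ₗ[R] M), Function.Surjective e ∧
      IsFP R n (LinearMap.ker e) := by
  constructor
  · rintro ⟨k, e, d, h1, h2, h3⟩
    have h2' := h2 (by omega)
    refine ⟨k 0, e, h1, fun i => k (i + 1),
      (d 0).codRestrict (LinearMap.ker e) (fun c => by rw [← h2']; exact ⟨c, rfl⟩),
      fun i => d (i + 1), ?_, ?_, ?_⟩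
    · rintro ⟨y, hy⟩
      rw [← h2'] at hy
      obtain ⟨x, rfl⟩ := hy
      exact ⟨x, rfl⟩
    · intro hn
      rw [LinearMap.ker_codRestrict]
      exact h3 0 (by omega)
    · intro i hi
      exact h3 (i + 1) (by omega)
  · rintro ⟨k, e, h1, k', e', d', h1', h2', h3'⟩
    refine ⟨consNat k k', e, fun i => match i with
      | 0 => (LinearMap.ker e).subtype.comp e'
      | i + 1 => d' i, h1, ?_, ?_⟩
    · intro _
      show LinearMap.range ((LinearMap.ker e).subtype.comp e') = LinearMap.ker e
      rw [LinearMap.range_comp, LinearMap.range_eq_top.mpr h1', Submodule.map_top,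
        Submodule.range_subtype]
    · intro i hi
      match i with
      | 0 =>
        show LinearMap.range (d' 0) = LinearMap.ker ((LinearMap.ker e).subtype.comp e')
        rw [h2' (by omega), LinearMap.ker_comp, Submodule.ker_subtype]
        rfl
      | i + 1 => exact h3' i (by omega)

/-- It is enough to use a finite index type. -/
theorem isFP_succ_of {n : ℕ} {M : Type v} [AddCommGroup M] [Module R M] (ι : Type) [Finite ι]
    (e : (ι → R) →ₗ[R] M) (he : Function.Surjective e) (hk : IsFP R n (LinearMap.ker e)) :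
    IsFP R (n + 1) M := by
  obtain ⟨k, ⟨f⟩⟩ := Finite.exists_equiv_fin ι
  let F : (Fin k → R) ≃ₗ[R] (ι → R) := LinearEquiv.funCongrLeft R R f
  rw [isFP_succ_iff]
  refine ⟨k, e.comp F.toLinearMap, he.comp F.surjective, ?_⟩
  have E : LinearMap.ker (e.comp F.toLinearMap) ≃ₗ[R] LinearMap.ker e :=
    LinearEquiv.ofSubmodules F _ _ (by
      rw [LinearMap.ker_comp]
      ext x
      simp only [Submodule.mem_map, Submodule.mem_comap]
      constructor
      · rintro ⟨y, hy, rfl⟩
        exact hy
      · intro hx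
        exact ⟨F.symm x, by simpa using hx, by simp⟩)
  exact hk.equiv E.symm

theorem isFP_of_subsingleton (n : ℕ) (M : Type v) [AddCommGroup M] [Module R M]
    [Subsingleton M] : IsFP R n M := by
  refine ⟨fun _ => 0, 0, fun _ => 0, fun x => ⟨0, Subsingleton.elim _ _⟩, ?_, ?_⟩
  · intro _
    ext x
    have : x = 0 := Subsingleton.elim _ _
    simp [this]
  · intro i _
    ext x
    have : x = 0 := Subsingleton.elim _ _
    simp [this]

theorem isFP_free (n : ℕ) (k : ℕ) : IsFP R n (Fin k → R) := by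
  refine ⟨consNat k (fun _ => 0), LinearMap.id, fun _ => 0, fun x => ⟨x, rfl⟩, ?_, ?_⟩
  · intro _
    show LinearMap.range (0 : (Fin 0 → R) →ₗ[R] (Fin k → R)) =
      LinearMap.ker (LinearMap.id : (Fin k → R) →ₗ[R] (Fin k → R))
    rw [LinearMap.range_zero, LinearMap.ker_id]
  · intro i _
    ext x
    have : x = 0 := Subsingleton.elim (α := Fin 0 → R) _ _
    simp [this]

theorem isFP_self (n : ℕ) : IsFP R n R :=
  (isFP_free n 1).equiv (LinearEquiv.funUnique (Fin 1) R R)

end Ring

end Pool.Agent.QProd
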