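import Mathlib
import Pool.Agent.QProd.FP

set_option autoImplicit false

namespace Pool.Agent.QProd

universe u v1 v2 v3

section Ring

variable {R : Type u} [Ring R]

/-- The extension property at level `n` for modules in the universe of the ring. -/
def ExtProp (R : Type u) [Ring R] (n : ℕ) : Prop :=
  ∀ (A B C : Type u) [AddCommGroup A] [AddCommGroup B] [AddCommGroup C]
    [Module R A] [Module R B] [Module R C] (f : A →ₗ[R] B) (g : B →ₗ[R] C),
    Function.Injective f → Function.Exact f g → Function.Surjective g →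
    IsFP R n A → IsFP R n C → IsFP R n B

theorem ext_step (n : ℕ) (H : ExtProp R n) {A : Type v1} {B : Type v2} {C : Type v3}
    [AddCommGroup A] [AddCommGroup B] [AddCommGroup C]
    [Module R A] [Module R B] [Module R C] (f : A →ₗ[R] B) (g : B →ₗ[R] C)
    (hf : Function.Injective f) (hfg : Function.Exact f g) (hg : Function.Surjective g)
    (hA : IsFP R (n + 1) A) (hC : IsFP R (n + 1) C) : IsFP R (n + 1) B := by
  rw [isFP_succ_iff] at hA hC
  obtain ⟨k, a, ha, hka⟩ := hA
  obtain ⟨l, c, hc, hkc⟩ := hC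
  obtain ⟨s, hs⟩ := Module.projective_lifting_property g c hg
  have hs' : ∀ x, g (s x) = c x := fun x => LinearMap.congr_fun hs x
  let b : ((Fin k ⊕ Fin l) → R) →ₗ[R] B :=
    (LinearMap.coprod (f.comp a) s).comp
      (LinearEquiv.sumArrowLequivProdArrow (Fin k) (Fin l) R R).toLinearMap
  have hgf : ∀ x, g (f x) = 0 := fun x => (hfg (f x)).mpr ⟨x, rfl⟩
  have hb : Function.Surjective b := by
    intro y
    obtain ⟨z, hz⟩ := hc (g y)
    have h1 : g (y - s z) = 0 := by rw [map_sub, hs', hz, sub_self]
    obtain ⟨w, hw⟩ := (hfg _).mp h1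
    obtain ⟨x, rfl⟩ := ha w
    refine ⟨(LinearEquiv.sumArrowLequivProdArrow (Fin k) (Fin l) R R).symm (x, z), ?_⟩
    show (LinearMap.coprod (f.comp a) s)
      ((LinearEquiv.sumArrowLequivProdArrow (Fin k) (Fin l) R R)
        ((LinearEquiv.sumArrowLequivProdArrow (Fin k) (Fin l) R R).symm (x, z))) = y
    rw [LinearEquiv.apply_symm_apply, LinearMap.coprod_apply]
    show f (a x) + s z = y
    rw [hw]
    abel
  apply isFP_succ_of (Fin k ⊕ Fin l) b hb
  let E := LinearEquiv.sumArrowLequivProdArrow (Fin k) (Fin l) R R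
  have hbE : ∀ v, b v = f (a (E v).1) + s (E v).2 := fun v => rfl
  let F : LinearMap.ker a →ₗ[R] LinearMap.ker b :=
    LinearMap.codRestrict (LinearMap.ker b)
      ((E.symm.toLinearMap.comp (LinearMap.inl R _ _)).comp (LinearMap.ker a).subtype) (by
        rintro ⟨x, hx⟩
        rw [LinearMap.mem_ker] at hx ⊢
        rw [hbE]
        show f (a (E (E.symm (x, 0))).1) + s (E (E.symm (x, 0))).2 = 0
        rw [LinearEquiv.apply_symm_apply]
        simp [hx])
  let Gm : LinearMap.ker b →ₗ[R] LinearMap.ker c :=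
    LinearMap.codRestrict (LinearMap.ker c)
      (((LinearMap.snd R _ _).comp E.toLinearMap).comp (LinearMap.ker b).subtype) (by
        rintro ⟨x, hx⟩
        rw [LinearMap.mem_ker, hbE] at hx
        rw [LinearMap.mem_ker]
        show c (E x).2 = 0
        have := congrArg g hx
        rw [map_add, hgf, hs', zero_add, map_zero] at this
        exact this)
  have hF : Function.Injective F := by
    intro x y hxy
    have h1 : E.symm ((x : Fin k → R), (0 : Fin l → R)) = E.symm ((y : Fin k → R), 0) :=
      congrArg Subtype.val hxy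
    have h2 := E.symm.injective h1
    exact Subtype.ext (congrArg Prod.fst h2)
  have hG : Function.Surjective Gm := by
    rintro ⟨z, hz⟩
    rw [LinearMap.mem_ker] at hz
    have h1 : g (s z) = 0 := by rw [hs', hz]
    obtain ⟨w, hw⟩ := (hfg _).mp h1
    obtain ⟨x, rfl⟩ := ha w
    refine ⟨⟨E.symm (-x, z), ?_⟩, ?_⟩
    · rw [LinearMap.mem_ker, hbE, LinearEquiv.apply_symm_apply]
      show f (a (-x)) + s z = 0
      rw [map_neg, map_neg, hw]
      abel
    · apply Subtype.ext
      show (E (E.symm (-x, z))).2 = z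
      rw [LinearEquiv.apply_symm_apply]
  have hFG : Function.Exact F Gm := by
    rintro ⟨v, hv⟩
    rw [LinearMap.mem_ker, hbE] at hv
    constructor
    · intro h
      have h1 : (E v).2 = 0 := congrArg Subtype.val h
      rw [h1, map_zero, add_zero] at hv
      have h2 : a (E v).1 = 0 := by
        apply hf
        rw [hv, map_zero]
      refine ⟨⟨(E v).1, h2⟩, ?_⟩
      apply Subtype.ext
      show E.symm ((E v).1, 0) = v
      rw [LinearEquiv.symm_apply_eq]
      exact Prod.ext rfl h1.symm
    · rintro ⟨⟨x, hx⟩, h⟩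
      have h1 : E.symm (x, 0) = v := congrArg Subtype.val h
      apply Subtype.ext
      show (E v).2 = 0
      rw [← h1, LinearEquiv.apply_symm_apply]
  exact H _ _ _ F Gm hF hFG hG hka hkc

theorem extProp (n : ℕ) : ExtProp R n := by
  induction n with
  | zero =>
    intro A B C _ _ _ _ _ _ f g hf hfg hg hA hC
    rw [isFP_zero_iff] at *
    exact Module.Finite.of_exact hfg hg
  | succ n ih =>
    intro A B C _ _ _ _ _ _ f g hf hfg hg hA hC
    exact ext_step n ih f g hf hfg hg hA hC

/-- Extensions of modules of type `FP_n` are of type `FP_n`. -/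
theorem IsFP.ext (n : ℕ) {A : Type v1} {B : Type v2} {C : Type v3}
    [AddCommGroup A] [AddCommGroup B] [AddCommGroup C]
    [Module R A] [Module R B] [Module R C] (f : A →ₗ[R] B) (g : B →ₗ[R] C)
    (hf : Function.Injective f) (hfg : Function.Exact f g) (hg : Function.Surjective g)
    (hA : IsFP R n A) (hC : IsFP R n C) : IsFP R n B := by
  cases n with
  | zero =>
    rw [isFP_zero_iff] at *
    exact Module.Finite.of_exact hfg hg
  | succ n => exact ext_step n (extProp n) f g hf hfg hg hA hC

/-- The quotient of an `FP_{n+1}` module by an `FP_n` module is `FP_{n+1}`. -/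
theorem IsFP.quot (n : ℕ) {A : Type v1} {B : Type v2} {C : Type v3}
    [AddCommGroup A] [AddCommGroup B] [AddCommGroup C]
    [Module R A] [Module R B] [Module R C] (f : A →ₗ[R] B) (g : B →ₗ[R] C)
    (hf : Function.Injective f) (hfg : Function.Exact f g) (hg : Function.Surjective g)
    (hA : IsFP R n A) (hB : IsFP R (n + 1) B) : IsFP R (n + 1) C := by
  rw [isFP_succ_iff] at hB ⊢
  obtain ⟨k, b, hb, hkb⟩ := hB
  refine ⟨k, g.comp b, hg.comp hb, ?_⟩
  let F : LinearMap.ker b →ₗ[R] LinearMap.ker (g.comp b) :=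
    Submodule.inclusion (by
      intro x hx
      rw [LinearMap.mem_ker] at hx ⊢
      rw [LinearMap.comp_apply, hx, map_zero])
  let E := LinearEquiv.ofInjective f hf
  let Gm : LinearMap.ker (g.comp b) →ₗ[R] A :=
    E.symm.toLinearMap.comp (LinearMap.codRestrict (LinearMap.range f)
      (b.comp (LinearMap.ker (g.comp b)).subtype) (by
        rintro ⟨x, hx⟩
        rw [LinearMap.mem_ker, LinearMap.comp_apply] at hx
        exact (hfg _).mp hx))
  have hGm : ∀ x, f (Gm x) = b x := by
    intro x
    have := LinearEquiv.ofInjective_apply (f := f) (h := hf) (Gm x)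
    rw [← this]
    show ((E (E.symm _)) : B) = _
    rw [LinearEquiv.apply_symm_apply]
    rfl
  refine IsFP.ext n F Gm (Submodule.inclusion_injective _) ?_ ?_ hkb hA
  · intro x
    constructor
    · intro h
      have h1 : b x = 0 := by rw [← hGm, h, map_zero]
      exact ⟨⟨x, h1⟩, rfl⟩
    · rintro ⟨y, rfl⟩
      apply hf
      rw [hGm, map_zero]
      exact y.2
  · intro a
    obtain ⟨x, hx⟩ := hb (f a)
    have h1 : x ∈ LinearMap.ker (g.comp b) := by
      rw [LinearMap.mem_ker, LinearMap.comp_apply, hx]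
      exact (hfg _).mpr ⟨a, rfl⟩
    refine ⟨⟨x, h1⟩, ?_⟩
    apply hf
    rw [hGm]
    exact hx

theorem IsFP.prod {n : ℕ} {A : Type v1} {B : Type v2} [AddCommGroup A] [AddCommGroup B]
    [Module R A] [Module R B] (hA : IsFP R n A) (hB : IsFP R n B) : IsFP R n (A × B) := by
  refine IsFP.ext n (LinearMap.inl R A B) (LinearMap.snd R A B) LinearMap.inl_injective ?_
    LinearMap.snd_surjective hA hB
  rintro ⟨a, b⟩
  constructor
  · intro h
    refine ⟨a, ?_⟩
    have : b = 0 := h
    rw [this]
    rfl
  · rintro ⟨x, hx⟩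
    rw [← hx]
    rfl

theorem IsFP.pi {n : ℕ} {A : Type v1} [AddCommGroup A] [Module R A] (hA : IsFP R n A) (k : ℕ) :
    IsFP R n (Fin k → A) := by
  induction k with
  | zero => exact isFP_of_subsingleton n _
  | succ k ih =>
    exact (hA.prod ih).equiv (Fin.consLinearEquiv R (fun _ : Fin (k + 1) => A))

end Ring

end Pool.Agent.QProd
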