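import Mathlib
import Pool.Agent.QProd.SES

set_option autoImplicit false

namespace Pool.Agent.QProd

universe u u' v v' w w' x

section Ind

variable {R : Type u} {R' : Type u'} [Ring R] [Ring R'] (ρ : R →+* R') {T : Type x} (b : T → R')

/-- `∑ t, b t • j (m t)` -/
noncomputable def indHom {M : Type v} {M' : Type v'} [AddCommGroup M] [AddCommGroup M'] [Module R' M']
    (j : M →+ M') : (T →₀ M) →+ M' :=
  Finsupp.liftAddHom (fun t => (DistribSMul.toAddMonoidHom M' (b t)).comp j)

theorem indHom_single {M : Type v} {M' : Type v'} [AddCommGroup M] [AddCommGroup M'] [Module R' M']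
    (j : M →+ M') (t : T) (m : M) : indHom b j (Finsupp.single t m) = b t • j m := by
  simp [indHom]

/-- `j : M → M'` exhibits `M'` as an induced module. -/
structure IsInd {M : Type v} {M' : Type v'} [AddCommGroup M] [AddCommGroup M']
    [Module R M] [Module R' M'] (j : M →+ M') : Prop where
  smul : ∀ r m, j (r • m) = ρ r • j m
  bij : Function.Bijective (indHom b j)

theorem indHom_nat {M : Type v} {M' : Type v'} [AddCommGroup M] [AddCommGroup M'] [Module R' M']
    {N : Type w} {N' : Type w'} [AddCommGroup N] [AddCommGroup N'] [Module R' N']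
    (j : M →+ M') (j2 : N →+ N') (a : M →+ N) (a' : M' →+ N')
    (ha' : ∀ t m, a' (b t • m) = b t • a' m) (h : ∀ m, a' (j m) = j2 (a m)) (y : T →₀ M) :
    indHom b j2 (Finsupp.mapRange.addMonoidHom a y) = a' (indHom b j y) := by
  induction y using Finsupp.induction_linear with
  | zero => simp
  | add f g hf hg => simp only [map_add, hf, hg]
  | single t m =>
    rw [indHom_single, ha', h]
    simp [indHom_single]

/-- coordinatewise application of `ρ` -/
def jPi (k : ℕ) : (Fin k → R) →+ (Fin k → R') where
  toFun v i := ρ (v i)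
  map_zero' := by ext; simp
  map_add' v w := by ext; simp

theorem IsInd.pi (hR : IsInd ρ b (ρ : R →+ R')) (k : ℕ) : IsInd ρ b (jPi ρ k) := by
  constructor
  · intro r m
    ext i
    show ρ (r * m i) = ρ r * ρ (m i)
    rw [map_mul]
  · have hev : ∀ (y : T →₀ (Fin k → R)) (i : Fin k),
        indHom b (ρ : R →+ R') (Finsupp.mapRange.addMonoidHom (Pi.evalAddMonoidHom _ i) y) =
          (indHom b (jPi ρ k) y) i := by
      intro y i
      exact indHom_nat b (jPi ρ k) (ρ : R →+ R') (Pi.evalAddMonoidHom _ i) (Pi.evalAddMonoidHom _ i)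
        (fun t m => rfl) (fun m => rfl) y
    have hsi : ∀ (y : T →₀ R) (i : Fin k),
        indHom b (jPi ρ k) (Finsupp.mapRange.addMonoidHom (AddMonoidHom.single (fun _ : Fin k => R) i) y) =
          Pi.single i (indHom b (ρ : R →+ R') y) := by
      intro y i
      refine indHom_nat b (ρ : R →+ R') (jPi ρ k) (AddMonoidHom.single (fun _ : Fin k => R) i)
        (AddMonoidHom.single (fun _ : Fin k => R') i) ?_ ?_ y
      · intro t m
        show Pi.single i (b t • m) = b t • Pi.single i m
        rw [Pi.single_smul']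
      · intro m
        ext i'
        show (Pi.single i (ρ m) : Fin k → R') i' = ρ ((Pi.single i m : Fin k → R) i')
        by_cases h : i' = i
        · subst h; simp
        · simp [h]
    constructor
    · rw [injective_iff_map_eq_zero]
      intro y hy
      ext t i
      have h1 := hev y i
      rw [hy] at h1
      have h2 := (injective_iff_map_eq_zero _).mp hR.bij.1 _ h1
      have h3 := DFunLike.congr_fun h2 t
      simpa using h3
    · intro v
      choose y hy using fun i => hR.bij.2 (v i)
      refine ⟨∑ i, Finsupp.mapRange.addMonoidHom (AddMonoidHom.single (fun _ : Fin k => R) i) (y i), ?_⟩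
      rw [map_sum]
      simp_rw [hsi, hy]
      exact Finset.univ_sum_single v

variable {M : Type v} {M' : Type v'} [AddCommGroup M] [AddCommGroup M']
    [Module R M] [Module R' M']

/-- the induced map from a finite free module -/
noncomputable def eInd (j : M →+ M') {k : ℕ} (e : (Fin k → R) →ₗ[R] M) : (Fin k → R') →ₗ[R'] M' :=
  Fintype.linearCombination R' (fun i => j (e (Pi.single i 1)))

variable {ρ b} in
theorem eInd_jPi {j : M →+ M'} (hj : IsInd ρ b j) {k : ℕ} (e : (Fin k → R) →ₗ[R] M) (v : Fin k → R) :
    eInd j e (jPi ρ k v) = j (e v) := by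
  have h1 : v = ∑ i, v i • (Pi.single i 1 : Fin k → R) := by
    ext i
    simp [Finset.sum_apply, Pi.single_apply]
  conv_rhs => rw [h1, map_sum, map_sum]
  unfold eInd
  rw [Fintype.linearCombination_apply]
  apply Finset.sum_congr rfl
  intro i _
  rw [map_smul, hj.smul]
  rfl

variable {ρ b} in
theorem eInd_surj {j : M →+ M'} (hj : IsInd ρ b j) {k : ℕ} (e : (Fin k → R) →ₗ[R] M)
    (he : Function.Surjective e) : Function.Surjective (eInd (R' := R') j e) := by
  intro m'
  obtain ⟨y, rfl⟩ := hj.bij.2 m'
  have : indHom b j y ∈ LinearMap.range (eInd (R' := R') j e) := by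
    induction y using Finsupp.induction_linear with
    | zero => rw [map_zero]; exact Submodule.zero_mem _
    | add f g hf hg => rw [map_add]; exact Submodule.add_mem _ hf hg
    | single t m =>
      rw [indHom_single]
      apply Submodule.smul_mem
      obtain ⟨v, rfl⟩ := he m
      exact ⟨jPi ρ k v, eInd_jPi hj e v⟩
  exact this

variable {ρ b} in
/-- restriction of `jPi` to kernels -/
noncomputable def jKer {j : M →+ M'} (hj : IsInd ρ b j) {k : ℕ} (e : (Fin k → R) →ₗ[R] M) :
    LinearMap.ker e →+ LinearMap.ker (eInd (R' := R') j e) where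
  toFun v := ⟨jPi ρ k v, by
    rw [LinearMap.mem_ker, eInd_jPi hj, LinearMap.mem_ker.mp v.2, map_zero]⟩
  map_zero' := by
    apply Subtype.ext
    exact map_zero (jPi ρ k)
  map_add' v w := by
    apply Subtype.ext
    exact map_add (jPi ρ k) v.1 w.1

variable {ρ b} in
theorem isInd_jKer (hR : IsInd ρ b (ρ : R →+ R')) {j : M →+ M'} (hj : IsInd ρ b j) {k : ℕ}
    (e : (Fin k → R) →ₗ[R] M) : IsInd ρ b (jKer hj e) := by
  have hpi := IsInd.pi ρ b hR k
  have hval : ∀ y : T →₀ LinearMap.ker e,
      indHom b (jPi ρ k) (Finsupp.mapRange.addMonoidHom (LinearMap.ker e).subtype.toAddMonoidHom y) =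
        ((indHom b (jKer hj e) y : LinearMap.ker (eInd (R' := R') j e)) : Fin k → R') := by
    intro y
    exact indHom_nat b (jKer hj e) (jPi ρ k) (LinearMap.ker e).subtype.toAddMonoidHom
      (LinearMap.ker (eInd (R' := R') j e)).subtype.toAddMonoidHom (fun t m => rfl) (fun m => rfl) y
  constructor
  · intro r m
    apply Subtype.ext
    exact hpi.smul r m.1
  · constructor
    · rw [injective_iff_map_eq_zero]
      intro y hy
      have h1 := hval y
      rw [hy] at h1
      have h2 := (injective_iff_map_eq_zero _).mp hpi.bij.1 _ h1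
      ext t : 1
      apply Subtype.ext
      have h3 := DFunLike.congr_fun h2 t
      simpa using h3
    · rintro ⟨y', hy'⟩
      obtain ⟨z, hz⟩ := hpi.bij.2 y'
      have h1 : indHom b j (Finsupp.mapRange.addMonoidHom e.toAddMonoidHom z) = 0 := by
        rw [indHom_nat b (jPi ρ k) j e.toAddMonoidHom (eInd (R' := R') j e).toAddMonoidHom
          (fun t m => map_smul (eInd (R' := R') j e) _ _) (fun m => eInd_jPi hj e m), hz]
        exact hy'
      have h2 := (injective_iff_map_eq_zero _).mp hj.bij.1 _ h1
      have h3 : ∀ t, z t ∈ LinearMap.ker e := by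
        intro t
        have := DFunLike.congr_fun h2 t
        simpa using this
      refine ⟨Finsupp.onFinset z.support (fun t => ⟨z t, h3 t⟩) ?_, ?_⟩
      · intro t ht
        rw [Finsupp.mem_support_iff]
        intro h
        exact ht (Subtype.ext h)
      · apply Subtype.ext
        rw [← hval]
        show _ = y'
        rw [← hz]
        congr 1
        ext t : 1
        simp

/-- property at level n for kernels -/
def IndProp (ρ : R →+* R') {T : Type x} (b : T → R') (n : ℕ) : Prop :=
  ∀ (M : Type u) (M' : Type u') [AddCommGroup M] [AddCommGroup M'] [Module R M] [Module R' M']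
    (j : M →+ M'), IsInd ρ b j → IsFP R n M → IsFP R' n M'

variable {ρ b} in
theorem ind_zero {j : M →+ M'} (hj : IsInd ρ b j)
    (hM : IsFP R 0 M) : IsFP R' 0 M' := by
  rw [isFP_zero_iff] at *
  obtain ⟨k, e, he⟩ := Module.Finite.exists_fin' R M
  exact Module.Finite.of_surjective _ (eInd_surj hj e he)

variable {ρ b} in
theorem ind_succ (hR : IsInd ρ b (ρ : R →+ R')) (n : ℕ) (H : IndProp ρ b n)
    {j : M →+ M'} (hj : IsInd ρ b j) (hM : IsFP R (n + 1) M) : IsFP R' (n + 1) M' := by
  rw [isFP_succ_iff] at *
  obtain ⟨k, e, he, hk⟩ := hM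
  exact ⟨k, eInd j e, eInd_surj hj e he, H _ _ _ (isInd_jKer hR hj e) hk⟩

variable {ρ b} in
theorem indProp (hR : IsInd ρ b (ρ : R →+ R')) (n : ℕ) : IndProp ρ b n := by
  induction n with
  | zero => intro M M' _ _ _ _ j hj hM; exact ind_zero hj hM
  | succ n ih => intro M M' _ _ _ _ j hj hM; exact ind_succ hR n ih hj hM

variable {ρ b} in
/-- Induction preserves type `FP_n`. -/
theorem IsFP.ind (hR : IsInd ρ b (ρ : R →+ R')) (n : ℕ)
    {j : M →+ M'} (hj : IsInd ρ b j) (hM : IsFP R n M) : IsFP R' n M' := by
  cases n with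
  | zero => exact ind_zero hj hM
  | succ n => exact ind_succ hR n (indProp hR n) hj hM

end Ind

end Pool.Agent.QProd
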