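import Mathlib
import Pool.Agent.QProd.SES

set_option autoImplicit false

namespace Pool.Agent.QProd

universe u u' v

section Restr

variable {R : Type u} {S : Type u'} [Ring R] [Ring S] (ψ : R →+* S)

/-- restriction of scalars at level `n` for modules in the universe of the ring -/
def RestrProp (n : ℕ) : Prop :=
  ∀ (M : Type u') [AddCommGroup M] [Module S M] [Module R M], (∀ (r : R) (m : M), r • m = ψ r • m) →
    IsFP S n M → IsFP R n M

variable {M : Type v} [AddCommGroup M] [Module S M] [Module R M]

/-- an `S`-linear map is `R`-linear -/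
def restrLin {N : Type*} [AddCommGroup N] [Module S N] [Module R N]
    (hN : ∀ (r : R) (m : N), r • m = ψ r • m)
    (hM : ∀ (r : R) (m : M), r • m = ψ r • m) (e : N →ₗ[S] M) : N →ₗ[R] M where
  toFun := e
  map_add' := map_add e
  map_smul' r x := by
    rw [hN, hM, map_smul]
    rfl

variable [Module R S] (hS : ∀ (r : R) (s : S), r • s = ψ r • s)

include hS in
theorem restr_zero (hR : IsFP R 0 S) (hM : ∀ (r : R) (m : M), r • m = ψ r • m)
    (h : IsFP S 0 M) : IsFP R 0 M := by
  rw [isFP_zero_iff] at h
  obtain ⟨k, e, he⟩ := Module.Finite.exists_fin' S M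
  have h2 := hR.pi k
  rw [isFP_zero_iff] at h2 ⊢
  have hN : ∀ (r : R) (m : Fin k → S), r • m = ψ r • m := fun r m => funext fun i => hS r (m i)
  exact Module.Finite.of_surjective (restrLin ψ hN hM e) he

include hS in
theorem restr_succ (n : ℕ) (hR : IsFP R (n + 1) S) (H : RestrProp ψ n)
    (hM : ∀ (r : R) (m : M), r • m = ψ r • m) (h : IsFP S (n + 1) M) : IsFP R (n + 1) M := by
  rw [isFP_succ_iff (R := S)] at h
  obtain ⟨k, e, he, hk⟩ := h
  have hN : ∀ (r : R) (m : Fin k → S), r • m = ψ r • m := fun r m => funext fun i => hS r (m i)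
  letI : Module R (LinearMap.ker e) := Module.compHom _ ψ
  have hK : ∀ (r : R) (m : LinearMap.ker e), r • m = ψ r • m := fun r m => rfl
  refine IsFP.quot n (restrLin ψ hK hN (LinearMap.ker e).subtype) (restrLin ψ hN hM e)
    Subtype.val_injective ?_ he (H _ hK hk) (hR.pi k)
  intro x
  constructor
  · intro hx
    exact ⟨⟨x, hx⟩, rfl⟩
  · rintro ⟨⟨y, hy⟩, rfl⟩
    exact hy

include hS in
theorem restrProp (n : ℕ) (hR : IsFP R n S) : RestrProp ψ n := by
  induction n with
  | zero => intro M _ _ _ hM h; exact restr_zero ψ hS hR hM h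
  | succ n ih =>
    intro M _ _ _ hM h
    exact restr_succ ψ hS n hR (ih (hR.mono (by omega))) hM h

include hS in
/-- If `S` is `FP_n` over `R`, then `FP_n` modules over `S` are `FP_n` over `R`. -/
theorem IsFP.restr (n : ℕ) (hR : IsFP R n S)
    (hM : ∀ (r : R) (m : M), r • m = ψ r • m) (h : IsFP S n M) : IsFP R n M := by
  cases n with
  | zero => exact restr_zero ψ hS hR hM h
  | succ n => exact restr_succ ψ hS n hR (restrProp ψ hS n (hR.mono (by omega))) hM h

end Restr

end Pool.Agent.QProd
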