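import Mathlib
import Pool.Agent.QProd.Induced
import Pool.Agent.QProd.Restrict

set_option autoImplicit false

namespace Pool.Agent.QProd

open MonoidAlgebra

universe u v w x

/-- the trivial module `ℤ` over the group ring `ℤ[G]` -/
abbrev Triv (G : Type u) [Group G] : Type := (Representation.trivial ℤ G ℤ).asModule

section Lin

variable {G : Type u} [Group G]

theorem single_smul_eq {M : Type v} [AddCommGroup M] [Module (MonoidAlgebra ℤ G) M] (g : G) (n : ℤ)
    (m : M) : (single g n : MonoidAlgebra ℤ G) • m = n • ((single g 1 : MonoidAlgebra ℤ G) • m) := by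
  rw [← smul_assoc, smul_single]
  simp

/-- an additive map commuting with the group is linear over the group ring -/
def mkLin {M : Type v} {N : Type w} [AddCommGroup M] [AddCommGroup N]
    [Module (MonoidAlgebra ℤ G) M] [Module (MonoidAlgebra ℤ G) N] (f : M →+ N)
    (hf : ∀ (g : G) (m : M), f ((single g 1 : MonoidAlgebra ℤ G) • m) =
      (single g 1 : MonoidAlgebra ℤ G) • f m) : M →ₗ[MonoidAlgebra ℤ G] N where
  toFun := f
  map_add' := map_add f
  map_smul' r m := by
    rw [RingHom.id_apply]
    induction r using MonoidAlgebra.induction_linear with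
    | zero => simp
    | add a b ha hb => rw [add_smul, map_add, ha, hb, add_smul]
    | single g n =>
      rw [single_smul_eq, map_zsmul, hf, ← single_smul_eq]

theorem triv_smul (g : G) (n : ℤ) (m : Triv G) :
    (single g n : MonoidAlgebra ℤ G) • m = n • m := by
  rw [Representation.single_smul]
  rfl

/-- permutation representation -/
noncomputable def permRep (G : Type u) [Group G] (X : Type v) [MulAction G X] :
    Representation ℤ G (X →₀ ℤ) where
  toFun g := Finsupp.lmapDomain ℤ ℤ (fun x => g • x)
  map_one' := by
    ext x
    simp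
  map_mul' g h := by
    ext x
    simp [mul_smul]

/-- permutation module -/
abbrev Perm (G : Type u) [Group G] (X : Type v) [MulAction G X] : Type v :=
  (permRep G X).asModule

/-- the basis element of the permutation module -/
noncomputable def pt {X : Type v} [MulAction G X] (x : X) (n : ℤ) : Perm G X :=
  (Finsupp.single x n : X →₀ ℤ)

theorem perm_smul {X : Type v} [MulAction G X] (g : G) (n : ℤ) (y : X) (m : ℤ) :
    (single g n : MonoidAlgebra ℤ G) • (pt y m : Perm G X) = pt (g • y) (n * m) := by
  rw [Representation.single_smul]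
  show n • (Finsupp.lmapDomain ℤ ℤ (fun x => g • x)) (Finsupp.single y m) = Finsupp.single (g • y) (n * m)
  simp

end Lin

section Transversal

variable {H : Type u} {G : Type v} [Group H] [Group G] (φ : H →* G) {T : Type w} (τ : T → G)

/-- `τ` is a transversal for the image of `φ`, and `φ` is injective -/
structure IsTrans : Prop where
  bij : Function.Bijective (fun p : T × H => τ p.1 * φ p.2)

variable {φ τ}

theorem IsTrans.isInd (h : IsTrans φ τ) :
    IsInd (mapDomainRingHom ℤ φ) (fun t => (single (τ t) 1 : MonoidAlgebra ℤ G))
      ((mapDomainRingHom ℤ φ : MonoidAlgebra ℤ H →+* MonoidAlgebra ℤ G) :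
        MonoidAlgebra ℤ H →+ MonoidAlgebra ℤ G) := by
  set e := Equiv.ofBijective _ h.bij with he
  have he' : ∀ t h, e (t, h) = τ t * φ h := fun t h => rfl
  constructor
  · intro r m
    exact map_mul (mapDomainRingHom ℤ φ) r m
  · let inv : MonoidAlgebra ℤ G →+ (T →₀ MonoidAlgebra ℤ H) :=
      (Finsupp.liftAddHom (fun g => (Finsupp.singleAddHom (e.symm g).1).comp
        (singleAddHom (R := ℤ) (e.symm g).2))).comp (coeffAddEquiv.toAddMonoidHom)
    have hinv : ∀ g n, inv (single g n) = Finsupp.single (e.symm g).1 (single (e.symm g).2 n) := by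
      intro g n
      show (Finsupp.liftAddHom _) (coeffAddEquiv (single g n)) = _
      simp
    have hf : ∀ t h n, indHom (fun t => (single (τ t) 1 : MonoidAlgebra ℤ G))
        ((mapDomainRingHom ℤ φ : MonoidAlgebra ℤ H →+* MonoidAlgebra ℤ G) :
        MonoidAlgebra ℤ H →+ MonoidAlgebra ℤ G) (Finsupp.single t (single h n)) =
        single (τ t * φ h) n := by
      intro t h n
      rw [indHom_single]
      show single (τ t) 1 * (mapDomainRingHom ℤ φ) (single h n) = _
      rw [mapDomainRingHom_apply, mapDomain_single, single_mul_single, one_mul]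
    rw [Function.bijective_iff_has_inverse]
    refine ⟨inv, ?_, ?_⟩
    · intro y
      induction y using Finsupp.induction_linear with
      | zero => simp
      | add f g hf hg => rw [map_add, map_add, hf, hg]
      | single t m =>
        induction m using MonoidAlgebra.induction_linear with
        | zero => simp
        | add a b ha hb => rw [Finsupp.single_add, map_add, map_add, ha, hb]
        | single h n =>
          rw [hf, ← he', hinv, Equiv.symm_apply_apply]
    · intro y
      induction y using MonoidAlgebra.induction_linear with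
      | zero => simp
      | add a b ha hb => rw [map_add, map_add, ha, hb]
      | single g n =>
        rw [hinv, hf, ← he']
        simp

/-- the map `n ↦ n x₀` -/
noncomputable def jPt {X : Type x} [MulAction G X] (x₀ : X) : Triv H →+ Perm G X where
  toFun n := pt x₀ n
  map_zero' := Finsupp.single_zero _
  map_add' _ _ := Finsupp.single_add _ _ _

variable (φ τ) in
theorem isInd_jPt {X : Type x} [MulAction G X] (x₀ : X)
    (hfix : ∀ h : H, φ h • x₀ = x₀) (hb : Function.Bijective (fun t : T => τ t • x₀)) :
    IsInd (mapDomainRingHom ℤ φ) (fun t => (single (τ t) 1 : MonoidAlgebra ℤ G))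
      (jPt (H := H) (G := G) x₀) := by
  constructor
  · intro r m
    induction r using MonoidAlgebra.induction_linear with
    | zero => simp
    | add a b ha hb => rw [add_smul, map_add, ha, hb, map_add, add_smul]
    | single h n =>
      rw [triv_smul, mapDomainRingHom_apply, mapDomain_single]
      let m' : ℤ := m
      have h3 := perm_smul (G := G) (φ h) n x₀ m'
      rw [hfix] at h3
      exact h3.symm
  · have h1 : ∀ y : T →₀ Triv H, indHom (fun t => (single (τ t) 1 : MonoidAlgebra ℤ G))
        (jPt (H := H) (G := G) x₀) y = (Finsupp.domCongr (Equiv.ofBijective _ hb) : (T →₀ ℤ) ≃+ (X →₀ ℤ)) y := by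
      intro y
      induction y using Finsupp.induction_linear with
      | zero => rw [map_zero]; exact (map_zero _).symm
      | add f g hf hg => rw [map_add, hf, hg]; exact (map_add _ _ _).symm
      | single t m =>
        rw [indHom_single]
        let m' : ℤ := m
        have h3 := perm_smul (G := G) (τ t) 1 x₀ m'
        rw [one_mul] at h3
        refine Eq.trans h3 ?_
        exact (Finsupp.equivMapDomain_single (Equiv.ofBijective _ hb) t m').symm
    have h2 := (Finsupp.domCongr (Equiv.ofBijective _ hb) : (T →₀ ℤ) ≃+ (X →₀ ℤ)).bijective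
    constructor
    · intro y z hyz
      rw [h1, h1] at hyz
      exact h2.1 hyz
    · intro z
      obtain ⟨y, hy⟩ := h2.2 z
      exact ⟨y, (h1 y).trans hy⟩

/-- The permutation module `ℤ[G/H]` is `FP_n` if `H` is. -/
theorem isFP_perm (h : IsTrans φ τ) {X : Type x} [MulAction G X] (x₀ : X)
    (hfix : ∀ h : H, φ h • x₀ = x₀) (hb : Function.Bijective (fun t : T => τ t • x₀)) (n : ℕ)
    (hH : TypeFP n H) : IsFP (MonoidAlgebra ℤ G) n (Perm G X) :=
  IsFP.ind h.isInd n (isInd_jPt φ τ x₀ hfix hb) hH

end Transversal

/-- The permutation module on cosets. -/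
theorem isFP_quot {H : Type u} {G : Type v} [Group H] [Group G] (φ : H →* G)
    (hφ : Function.Injective φ) (n : ℕ) (hH : TypeFP n H) :
    IsFP (MonoidAlgebra ℤ G) n (Perm G (G ⧸ φ.range)) := by
  let τ : G ⧸ φ.range → G := Quotient.out
  have hτ : ∀ q, ((τ q : G) : G ⧸ φ.range) = q := fun q => Quotient.out_eq' q
  have h1 : IsTrans φ τ := by
    constructor
    constructor
    · rintro ⟨t, h⟩ ⟨t', h'⟩ heq
      simp only at heq
      have h2 : t = t' := by
        rw [← hτ t, ← hτ t']
        have : (τ t' : G) = τ t * (φ h * (φ h')⁻¹) := by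
          rw [← mul_assoc, heq]; group
        rw [this]
        symm
        rw [QuotientGroup.mk_mul_of_mem]
        exact ⟨h * h'⁻¹, by simp⟩
      subst h2
      have h3 : φ h = φ h' := mul_left_cancel heq
      rw [hφ h3]
    · intro g
      have h2 : (τ (g : G ⧸ φ.range))⁻¹ * g ∈ φ.range := by
        rw [← QuotientGroup.eq]
        exact hτ _
      obtain ⟨h, hh⟩ := h2
      refine ⟨((g : G ⧸ φ.range), h), ?_⟩
      simp only
      rw [hh]
      group
  refine isFP_perm h1 (((1 : G) : G ⧸ φ.range)) ?_ ?_ n hH
  · intro h
    rw [MulAction.Quotient.smul_coe]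
    rw [smul_eq_mul, mul_one]
    rw [QuotientGroup.eq]
    simp
  · have : (fun t => τ t • ((1 : G) : G ⧸ φ.range)) = id := by
      funext t
      rw [MulAction.Quotient.smul_coe, smul_eq_mul, mul_one]
      exact hτ t
    rw [this]
    exact Function.bijective_id

end Pool.Agent.QProd
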