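import Mathlib
import Pool.Agent.QProd.GroupRing

set_option autoImplicit false

namespace Pool.Agent.QProd

open MonoidAlgebra

universe u v

section Amalgam

variable {A B C Q : Type u} [Group A] [Group B] [Group C] [Group Q]

/-- The pushout property of a commutative square of groups. -/
structure IsPush (i : C →* A) (k : C →* B) (α : A →* Q) (β : B →* Q) : Prop where
  comm : α.comp i = β.comp k
  gen : α.range ⊔ β.range = ⊤
  lift : ∀ (K : Type u) [Group K] (f : A →* K) (h : B →* K), f.comp i = h.comp k →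
    ∃ F : Q →* K, F.comp α = f ∧ F.comp β = h

variable {i : C →* A} {k : C →* B} {α : A →* Q} {β : B →* Q}

theorem IsPush.induct (h : IsPush i k α β) (S : Subgroup Q) (hA : ∀ a, α a ∈ S) (hB : ∀ b, β b ∈ S)
    (q : Q) : q ∈ S := by
  have h1 : α.range ⊔ β.range ≤ S := by
    rw [sup_le_iff]
    constructor
    · rintro _ ⟨a, rfl⟩; exact hA a
    · rintro _ ⟨b, rfl⟩; exact hB b
  rw [h.gen] at h1
  exact h1 (Subgroup.mem_top q)

/-- linear permutations of a permutation module -/
noncomputable def linPerm (Q : Type u) [Group Q] (X : Type v) [MulAction Q X] :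
    Q →* Equiv.Perm (X →₀ ℤ) where
  toFun g := ⟨permRep Q X g, permRep Q X g⁻¹, fun x => by
      rw [← Module.End.mul_apply, ← map_mul]; simp, fun x => by
      rw [← Module.End.mul_apply, ← map_mul]; simp⟩
  map_one' := by
    ext1 x
    show permRep Q X 1 x = x
    simp
  map_mul' g h := by
    ext1 x
    show permRep Q X (g * h) x = permRep Q X g (permRep Q X h x)
    rw [map_mul]
    rfl

theorem linPerm_apply {X : Type v} [MulAction Q X] (g : Q) (x : X →₀ ℤ) :
    linPerm Q X g x = permRep Q X g x := rfl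

theorem linPerm_add {X : Type v} [MulAction Q X] (g : Q) (x y : X →₀ ℤ) :
    linPerm Q X g (x + y) = linPerm Q X g x + linPerm Q X g y := map_add (permRep Q X g) x y

theorem linPerm_neg {X : Type v} [MulAction Q X] (g : Q) (x : X →₀ ℤ) :
    linPerm Q X g (-x) = -linPerm Q X g x := map_neg (permRep Q X g) x

theorem linPerm_zero {X : Type v} [MulAction Q X] (g : Q) :
    linPerm Q X g (0 : X →₀ ℤ) = 0 := map_zero (permRep Q X g)

theorem linPerm_inv {X : Type v} [MulAction Q X] (g : Q) (x : X →₀ ℤ) :
    linPerm Q X g (linPerm Q X g⁻¹ x) = x := by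
  rw [← Equiv.Perm.mul_apply, ← map_mul]
  simp

theorem linPerm_single {X : Type v} [MulAction Q X] (g : Q) (x : X) (n : ℤ) :
    linPerm Q X g (Finsupp.single x n) = Finsupp.single (g • x) n := by
  rw [linPerm_apply]
  show Finsupp.lmapDomain ℤ ℤ (fun x => g • x) (Finsupp.single x n) = _
  simp

/-- The retraction showing injectivity. -/
theorem exists_retraction (h : IsPush i k α β) :
    ∃ (rA : Q ⧸ α.range → ((Q ⧸ (α.comp i).range) →₀ ℤ))
      (rB : Q ⧸ β.range → ((Q ⧸ (α.comp i).range) →₀ ℤ)),
      ∀ q : Q, rA (q : Q ⧸ α.range) - rB (q : Q ⧸ β.range) =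
        Finsupp.single (q : Q ⧸ (α.comp i).range) 1 := by
  set X := Q ⧸ (α.comp i).range with hX
  let c : X →₀ ℤ := Finsupp.single ((1 : Q) : Q ⧸ (α.comp i).range) 1
  have hc : ∀ z : C, linPerm Q X (α (i z)) c = c := by
    intro z
    show linPerm Q X (α (i z)) (Finsupp.single _ 1) = Finsupp.single _ 1
    rw [linPerm_single, MulAction.Quotient.smul_coe, smul_eq_mul, mul_one]
    congr 1
    rw [QuotientGroup.eq]
    simp only [mul_one]
    exact Subgroup.inv_mem _ ⟨z, rfl⟩
  let tr : Equiv.Perm (X →₀ ℤ) := Equiv.addRight c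
  have htr : ∀ x, tr x = x + c := fun x => rfl
  have htr' : ∀ x, tr⁻¹ x = x - c := fun x => by
    rw [Equiv.Perm.inv_eq_iff_eq, htr]
    abel
  let f : A →* Equiv.Perm (X →₀ ℤ) := (linPerm Q X).comp α
  let g : B →* Equiv.Perm (X →₀ ℤ) := (MulAut.conj tr⁻¹).toMonoidHom.comp ((linPerm Q X).comp β)
  have hg : ∀ b x, g b x = linPerm Q X (β b) (x + c) - c := by
    intro b x
    show (tr⁻¹ * linPerm Q X (β b) * tr⁻¹⁻¹) x = _
    rw [inv_inv, Equiv.Perm.mul_apply, Equiv.Perm.mul_apply, htr, htr']
  have hfg : f.comp i = g.comp k := by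
    ext1 z
    apply Equiv.ext
    intro x
    have h1 : β (k z) = α (i z) := (DFunLike.congr_fun h.comm z).symm
    rw [MonoidHom.comp_apply g k, hg, h1, linPerm_add, hc]
    show linPerm Q X (α (i z)) x = _
    abel
  obtain ⟨F, hF1, hF2⟩ := h.lift _ f g hfg
  have hFA : ∀ a x, F (α a) x = linPerm Q X (α a) x := by
    intro a x
    have := DFunLike.congr_fun hF1 a
    rw [MonoidHom.comp_apply] at this
    rw [this]
    rfl
  have hFB : ∀ b x, F (β b) x = linPerm Q X (β b) (x + c) - c := by
    intro b x
    have := DFunLike.congr_fun hF2 b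
    rw [MonoidHom.comp_apply] at this
    rw [this, hg]
  have haff : ∀ q x, F q x = linPerm Q X q x + F q 0 := by
    let S : Subgroup Q :=
      { carrier := {q | ∀ x, F q x = linPerm Q X q x + F q 0}
        one_mem' := by
          intro x
          simp
        mul_mem' := by
          intro p q hp hq x
          rw [map_mul, map_mul, Equiv.Perm.mul_apply, Equiv.Perm.mul_apply, Equiv.Perm.mul_apply,
            hp (F q x), hq x, hp (F q 0), linPerm_add]
          abel
        inv_mem' := by
          intro q hq x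
          have key : ∀ x, F q⁻¹ x = linPerm Q X q⁻¹ (x - F q 0) := by
            intro x
            rw [map_inv F, Equiv.Perm.inv_eq_iff_eq, hq, linPerm_inv]
            abel
          rw [key x, key 0, sub_eq_add_neg, linPerm_add, sub_eq_add_neg, linPerm_add, linPerm_zero]
          abel }
    intro q
    refine h.induct S ?_ ?_ q
    · intro a x
      rw [hFA, hFA, linPerm_zero, add_zero]
    · intro b x
      rw [hFB, hFB, linPerm_add, linPerm_add, linPerm_zero]
      abel
  refine ⟨Quotient.lift (fun q : Q => F q 0) ?_, Quotient.lift (fun q : Q => F q (-c)) ?_, ?_⟩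
  · intro p q hpq
    have h1 : p⁻¹ * q ∈ α.range := QuotientGroup.leftRel_apply.mp hpq
    obtain ⟨a, ha⟩ := h1
    have h2 : q = p * α a := by rw [ha]; group
    rw [h2, map_mul, Equiv.Perm.mul_apply, hFA, linPerm_zero]
  · intro p q hpq
    have h1 : p⁻¹ * q ∈ β.range := QuotientGroup.leftRel_apply.mp hpq
    obtain ⟨b, hb⟩ := h1
    have h2 : q = p * β b := by rw [hb]; group
    rw [h2, map_mul, Equiv.Perm.mul_apply, hFB, neg_add_cancel, linPerm_zero, zero_sub]
  · intro q
    show F q 0 - F q (-c) = _
    rw [haff q (-c), linPerm_neg]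
    show _ = Finsupp.single _ 1
    have : linPerm Q X q c = Finsupp.single (q : Q ⧸ (α.comp i).range) 1 := by
      show linPerm Q X q (Finsupp.single _ 1) = _
      rw [linPerm_single, MulAction.Quotient.smul_coe, smul_eq_mul, mul_one]
    rw [this]
    abel

end Amalgam

end Pool.Agent.QProd
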