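import Mathlib
import Pool.Agent.QProd.Amalgam

set_option autoImplicit false

namespace Pool.Agent.QProd

open MonoidAlgebra

universe u v

variable {A B C Q : Type u} [Group A] [Group B] [Group C] [Group Q]
variable {i : C →* A} {k : C →* B} {α : A →* Q} {β : B →* Q}

theorem range_comp_le_left : (α.comp i).range ≤ α.range := by
  rintro _ ⟨z, rfl⟩
  exact ⟨i z, rfl⟩

theorem IsPush.range_comp_le_right (h : IsPush i k α β) : (α.comp i).range ≤ β.range := by
  rintro _ ⟨z, rfl⟩
  exact ⟨k z, (DFunLike.congr_fun h.comm z).symm⟩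

/-- the map `ℤ[Q/C] → ℤ[Q/A] × ℤ[Q/B]` -/
noncomputable def pMap (h : IsPush i k α β) :
    Perm Q (Q ⧸ (α.comp i).range) →+ Perm Q (Q ⧸ α.range) × Perm Q (Q ⧸ β.range) :=
  AddMonoidHom.prod
    (Finsupp.mapDomain.addMonoidHom (Subgroup.quotientMapOfLE (range_comp_le_left (α := α) (i := i))))
    (Finsupp.mapDomain.addMonoidHom (Subgroup.quotientMapOfLE h.range_comp_le_right))

theorem pMap_pt (h : IsPush i k α β) (q : Q) (n : ℤ) :
    pMap h (pt (q : Q ⧸ (α.comp i).range) n) =
      (pt (q : Q ⧸ α.range) n, pt (q : Q ⧸ β.range) n) := by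
  refine Prod.ext ?_ ?_
  · exact Finsupp.mapDomain_single
  · exact Finsupp.mapDomain_single

theorem pMap_smul (h : IsPush i k α β) (g : Q) (m : Perm Q (Q ⧸ (α.comp i).range)) :
    pMap h ((single g 1 : MonoidAlgebra ℤ Q) • m) = (single g 1 : MonoidAlgebra ℤ Q) • pMap h m := by
  let m' : (Q ⧸ (α.comp i).range) →₀ ℤ := m
  have : ∀ m' : (Q ⧸ (α.comp i).range) →₀ ℤ, pMap h ((single g 1 : MonoidAlgebra ℤ Q) •
      (show Perm Q (Q ⧸ (α.comp i).range) from m')) = (single g 1 : MonoidAlgebra ℤ Q) •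
        pMap h (show Perm Q (Q ⧸ (α.comp i).range) from m') := by
    intro m'
    induction m' using Finsupp.induction_linear with
    | zero =>
      have h0 : (show Perm Q (Q ⧸ (α.comp i).range) from (0 : (Q ⧸ (α.comp i).range) →₀ ℤ)) = 0 := rfl
      rw [h0, smul_zero, map_zero, smul_zero]
    | add f g hf hg =>
      have h0 : (show Perm Q (Q ⧸ (α.comp i).range) from (f + g : (Q ⧸ (α.comp i).range) →₀ ℤ)) =
        (show Perm Q (Q ⧸ (α.comp i).range) from f) + (show Perm Q (Q ⧸ (α.comp i).range) from g) := rfl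
      rw [h0, smul_add, map_add, hf, hg, map_add, smul_add]
    | single x n =>
      obtain ⟨q, rfl⟩ := QuotientGroup.mk_surjective x
      show pMap h ((single g 1 : MonoidAlgebra ℤ Q) • pt (q : Q ⧸ (α.comp i).range) n) = 
        (single g 1 : MonoidAlgebra ℤ Q) • pMap h (pt (q : Q ⧸ (α.comp i).range) n)
      rw [perm_smul, pMap_pt, MulAction.Quotient.smul_coe, pMap_pt, Prod.smul_mk, perm_smul,
        perm_smul, MulAction.Quotient.smul_coe, MulAction.Quotient.smul_coe]
  exact this m'

theorem pt_zsmul {X : Type u} [MulAction Q X] (x : X) (n : ℤ) :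
    (pt x n : Perm Q X) = n • (pt x 1 : Perm Q X) := by
  let f : ℤ →+ Perm Q X :=
    { toFun := fun n => pt x n
      map_zero' := Finsupp.single_zero _
      map_add' := fun _ _ => Finsupp.single_add _ _ _ }
  have h := map_zsmul f n 1
  rw [smul_eq_mul, mul_one] at h
  exact h

/-- the total sum -/
noncomputable def tot (Q : Type u) [Group Q] (X : Type u) [MulAction Q X] : Perm Q X →+ ℤ :=
  (Finsupp.liftAddHom (fun _ : X => AddMonoidHom.id ℤ) : (X →₀ ℤ) →+ ℤ)

theorem tot_pt {X : Type u} [MulAction Q X] (x : X) (n : ℤ) : tot Q X (pt x n) = n := by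
  show (Finsupp.liftAddHom (fun _ : X => AddMonoidHom.id ℤ)) (Finsupp.single x n) = n
  simp

/-- induction principle for additive maps on permutation modules -/
theorem perm_hom_ext {X : Type u} [MulAction Q X] {D : Type*} [AddCommMonoid D]
    {f g : Perm Q X →+ D} (h : ∀ x n, f (pt x n) = g (pt x n)) : f = g := by
  have : (f : (X →₀ ℤ) →+ D) = (g : (X →₀ ℤ) →+ D) := Finsupp.addHom_ext h
  exact this

theorem tot_smul {X : Type u} [MulAction Q X] (g : Q) (m : Perm Q X) :
    tot Q X ((single g 1 : MonoidAlgebra ℤ Q) • m) = tot Q X m := by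
  have h1 : (tot Q X).comp (DistribSMul.toAddMonoidHom (Perm Q X) (single g 1 : MonoidAlgebra ℤ Q)) =
      tot Q X := by
    apply perm_hom_ext
    intro x n
    show tot Q X ((single g 1 : MonoidAlgebra ℤ Q) • pt x n) = _
    rw [perm_smul, tot_pt, tot_pt, one_mul]
  exact DFunLike.congr_fun h1 m

/-- the difference of total sums -/
noncomputable def gMap (A' B' : Subgroup Q) : Perm Q (Q ⧸ A') × Perm Q (Q ⧸ B') →+ ℤ :=
  AddMonoidHom.coprod (tot Q (Q ⧸ A')) (-tot Q (Q ⧸ B'))

theorem gMap_apply (A' B' : Subgroup Q) (y : Perm Q (Q ⧸ A')) (z : Perm Q (Q ⧸ B')) :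
    gMap A' B' (y, z) = tot Q _ y - tot Q _ z := by
  show tot Q _ y + -tot Q _ z = _
  abel

theorem pMap_injective (h : IsPush i k α β) : Function.Injective (pMap h) := by
  obtain ⟨rA, rB, hr⟩ := exists_retraction h
  let P : Perm Q (Q ⧸ α.range) × Perm Q (Q ⧸ β.range) →+ ((Q ⧸ (α.comp i).range) →₀ ℤ) :=
    AddMonoidHom.coprod ((Finsupp.linearCombination ℤ rA).toAddMonoidHom : (_ →₀ ℤ) →+ _)
      (-(Finsupp.linearCombination ℤ rB).toAddMonoidHom : (_ →₀ ℤ) →+ _)
  have hP : ∀ (y : (Q ⧸ α.range) →₀ ℤ) (z : (Q ⧸ β.range) →₀ ℤ), P (y, z) =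
      Finsupp.linearCombination ℤ rA y - Finsupp.linearCombination ℤ rB z := by
    intro y z
    show Finsupp.linearCombination ℤ rA y + -Finsupp.linearCombination ℤ rB z = _
    abel
  have h1 : P.comp (pMap h) = AddMonoidHom.id ((Q ⧸ (α.comp i).range) →₀ ℤ) := by
    refine perm_hom_ext ?_
    intro x n
    obtain ⟨q, rfl⟩ := QuotientGroup.mk_surjective x
    show P (pMap h (pt _ n)) = (Finsupp.single _ n : _ →₀ ℤ)
    rw [pMap_pt]
    have h2 := hP (Finsupp.single (q : Q ⧸ α.range) n) (Finsupp.single (q : Q ⧸ β.range) n)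
    refine h2.trans ?_
    rw [Finsupp.linearCombination_single, Finsupp.linearCombination_single, ← smul_sub, hr]
    simp
  intro x y hxy
  have h2 : P (pMap h x) = P (pMap h y) := by rw [hxy]
  have h3 := DFunLike.congr_fun h1 x
  have h4 := DFunLike.congr_fun h1 y
  exact h3.symm.trans (h2.trans h4)

theorem pMap_exact (h : IsPush i k α β) :
    Function.Exact (pMap h) (gMap α.range β.range) := by
  let W : AddSubgroup (Perm Q (Q ⧸ α.range) × Perm Q (Q ⧸ β.range)) := (pMap h).range
  let a : Q → Perm Q (Q ⧸ α.range) × Perm Q (Q ⧸ β.range) := fun q => (pt (q : Q ⧸ α.range) 1, 0)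
  let b : Q → Perm Q (Q ⧸ α.range) × Perm Q (Q ⧸ β.range) := fun q => (0, pt (q : Q ⧸ β.range) 1)
  have hab : ∀ q, a q + b q ∈ W := by
    intro q
    refine ⟨pt (q : Q ⧸ (α.comp i).range) 1, ?_⟩
    rw [pMap_pt]
    show _ = (_ + 0, 0 + _)
    rw [add_zero, zero_add]
  have haA : ∀ q x, a (q * α x) = a q := by
    intro q x
    have : ((q * α x : Q) : Q ⧸ α.range) = (q : Q ⧸ α.range) :=
      QuotientGroup.mk_mul_of_mem q ⟨x, rfl⟩
    show (pt ((q * α x : Q) : Q ⧸ α.range) 1, (0 : Perm Q (Q ⧸ β.range))) = _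
    rw [this]
  have hbB : ∀ q x, b (q * β x) = b q := by
    intro q x
    have : ((q * β x : Q) : Q ⧸ β.range) = (q : Q ⧸ β.range) :=
      QuotientGroup.mk_mul_of_mem q ⟨x, rfl⟩
    show ((0 : Perm Q (Q ⧸ α.range)), pt ((q * β x : Q) : Q ⧸ β.range) 1) = _
    rw [this]
  have hconn : ∀ q g, a (g * q) - a g ∈ W := by
    let S : Subgroup Q :=
      { carrier := {q | ∀ g, a (g * q) - a g ∈ W}
        one_mem' := by
          intro g
          rw [mul_one, sub_self]
          exact W.zero_mem
        mul_mem' := by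
          intro p q hp hq g
          have : a (g * (p * q)) - a g = (a (g * p * q) - a (g * p)) + (a (g * p) - a g) := by
            rw [mul_assoc]; abel
          rw [this]
          exact W.add_mem (hq _) (hp _)
        inv_mem' := by
          intro q hq g
          have h1 := hq (g * q⁻¹)
          rw [inv_mul_cancel_right] at h1
          have := W.neg_mem h1
          rwa [neg_sub] at this }
    intro q
    refine h.induct S ?_ ?_ q
    · intro x g
      rw [haA, sub_self]
      exact W.zero_mem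
    · intro x g
      have h1 : a (g * β x) - a g = (a (g * β x) + b (g * β x)) - (a g + b g) := by
        rw [hbB]; abel
      rw [h1]
      exact W.sub_mem (hab _) (hab _)
  -- everything is congruent to a multiple of `a 1`
  have hmain : ∀ y z, (y, z) - (gMap α.range β.range (y, z)) • a 1 ∈ W := by
    have key : ((QuotientAddGroup.mk' W).comp (AddMonoidHom.inl _ _) =
        ((QuotientAddGroup.mk' W).comp (zmultiplesHom _ (a 1))).comp (tot Q (Q ⧸ α.range))) := by
      apply perm_hom_ext
      intro x n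
      obtain ⟨q, rfl⟩ := QuotientGroup.mk_surjective x
      show (QuotientAddGroup.mk (s := W) (pt (q : Q ⧸ α.range) n, (0 : Perm Q (Q ⧸ β.range)))) =
        QuotientAddGroup.mk (s := W) ((tot Q (Q ⧸ α.range) (pt (q : Q ⧸ α.range) n)) • a 1)
      rw [tot_pt, QuotientAddGroup.eq]
      have h1 : (pt (q : Q ⧸ α.range) n, (0 : Perm Q (Q ⧸ β.range))) = n • a q := by
        refine Prod.ext ?_ ?_
        · exact pt_zsmul _ n
        · show 0 = n • (0 : Perm Q (Q ⧸ β.range))
          rw [smul_zero]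
      rw [h1, ← smul_neg, ← smul_add]
      apply W.zsmul_mem
      have h2 := W.neg_mem (hconn q 1)
      rw [one_mul] at h2
      have h3 : -a q + a 1 = -(a q - a 1) := by abel
      rw [h3]
      exact h2
    have key2 : ((QuotientAddGroup.mk' W).comp (AddMonoidHom.inr _ _) =
        -((QuotientAddGroup.mk' W).comp (zmultiplesHom _ (a 1))).comp (tot Q (Q ⧸ β.range))) := by
      apply perm_hom_ext
      intro x n
      obtain ⟨q, rfl⟩ := QuotientGroup.mk_surjective x
      show (QuotientAddGroup.mk (s := W) ((0 : Perm Q (Q ⧸ α.range)), pt (q : Q ⧸ β.range) n)) =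
        -(QuotientAddGroup.mk (s := W) ((tot Q (Q ⧸ β.range) (pt (q : Q ⧸ β.range) n)) • a 1))
      rw [tot_pt, ← QuotientAddGroup.mk_neg, QuotientAddGroup.eq]
      have h1 : ((0 : Perm Q (Q ⧸ α.range)), pt (q : Q ⧸ β.range) n) = n • b q := by
        refine Prod.ext ?_ ?_
        · show 0 = n • (0 : Perm Q (Q ⧸ α.range))
          rw [smul_zero]
        · exact pt_zsmul _ n
      rw [h1, ← smul_neg, ← smul_neg, ← smul_add]
      apply W.zsmul_mem
      have h2 := W.sub_mem (hconn q 1) (hab q)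
      rw [one_mul] at h2
      have h3 : -b q + -a 1 = a q - a 1 - (a q + b q) := by abel
      rw [h3]
      exact h2
    intro y z
    have e1 := DFunLike.congr_fun key y
    have e2 := DFunLike.congr_fun key2 z
    have e3 : QuotientAddGroup.mk (s := W) (y, z) =
        QuotientAddGroup.mk (s := W) ((gMap α.range β.range (y, z)) • a 1) := by
      have h1 : (y, z) = AddMonoidHom.inl _ _ y + AddMonoidHom.inr _ _ z := by
        simp
      rw [gMap_apply]
      conv_lhs => rw [h1]
      rw [QuotientAddGroup.mk_add, sub_smul, sub_eq_add_neg, QuotientAddGroup.mk_add,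
        QuotientAddGroup.mk_neg]
      exact congrArg₂ (· + ·) e1 e2
    have e4 := (QuotientAddGroup.eq).mp e3.symm
    rw [neg_add_eq_sub] at e4
    exact e4
  rintro ⟨y, z⟩
  constructor
  · intro hyz
    have := hmain y z
    rw [hyz, zero_smul, sub_zero] at this
    exact this
  · rintro ⟨x, hx⟩
    rw [← hx]
    have h2 : (gMap α.range β.range).comp (pMap h) = 0 := by
      apply perm_hom_ext
      intro x n
      obtain ⟨q, rfl⟩ := QuotientGroup.mk_surjective x
      show gMap α.range β.range (pMap h (pt _ n)) = 0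
      rw [pMap_pt, gMap_apply, tot_pt, tot_pt, sub_self]
    exact DFunLike.congr_fun h2 x

theorem typeFP_zero (Q : Type u) [Group Q] : TypeFP 0 Q := by
  unfold TypeFP
  rw [isFP_zero_iff]
  let o : Triv Q := (1 : ℤ)
  refine Module.Finite.of_surjective (LinearMap.toSpanSingleton (MonoidAlgebra ℤ Q) (Triv Q) o) ?_
  intro m
  let m' : ℤ := m
  refine ⟨single 1 m', ?_⟩
  rw [LinearMap.toSpanSingleton_apply, triv_smul]
  show m' • (1 : ℤ) = m'
  simp

theorem typeFP_amalgam (n : ℕ) (h : IsPush i k α β) (hi : Function.Injective i)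
    (hα : Function.Injective α) (hβ : Function.Injective β)
    (hA : TypeFP (n + 1) A) (hB : TypeFP (n + 1) B) (hC : TypeFP n C) : TypeFP (n + 1) Q := by
  have h1 := isFP_quot α hα (n + 1) hA
  have h2 := isFP_quot β hβ (n + 1) hB
  have h3 := isFP_quot (α.comp i) (hα.comp hi) n hC
  let p := mkLin (pMap h) (pMap_smul h)
  let g : Perm Q (Q ⧸ α.range) × Perm Q (Q ⧸ β.range) →ₗ[MonoidAlgebra ℤ Q] Triv Q :=
    mkLin (M := Perm Q (Q ⧸ α.range) × Perm Q (Q ⧸ β.range)) (N := Triv Q)
      (gMap α.range β.range) (by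
        rintro x ⟨y, z⟩
        rw [triv_smul, one_smul]
        show gMap α.range β.range ((single x 1 : MonoidAlgebra ℤ Q) • y,
          (single x 1 : MonoidAlgebra ℤ Q) • z) = gMap α.range β.range (y, z)
        rw [gMap_apply, gMap_apply, tot_smul, tot_smul])
  refine IsFP.quot n p g (pMap_injective h) (pMap_exact h) ?_ h3 (h1.prod h2)
  intro m
  let m' : ℤ := m
  refine ⟨(pt ((1 : Q) : Q ⧸ α.range) m', 0), ?_⟩
  show gMap α.range β.range (pt ((1 : Q) : Q ⧸ α.range) m', 0) = m'
  rw [gMap_apply, tot_pt, map_zero, sub_zero]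

end Pool.Agent.QProd
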