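import Mathlib

set_option autoImplicit false

namespace Pool.Agent.FType

universe u v

/-- A sequence `⋯ → R^{k_2} → R^{k_1} → R^{k_0} → M` of `R`-linear maps between the finitely
generated free modules `R^{k_i} = (Fin (k i) → R)` and the module `M`. -/
structure FreeSeq (R : Type u) [Ring R] (M : Type v) [AddCommGroup M] [Module R M] where
  /-- the ranks -/
  k : ℕ → ℕ
  /-- the map `R^{k_0} → M` -/
  e : (Fin (k 0) → R) →ₗ[R] M
  /-- the map `R^{k_{i+1}} → R^{k_i}` -/
  d : ∀ i, (Fin (k (i + 1)) → R) →ₗ[R] (Fin (k i) → R)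

section

variable {R : Type u} [Ring R] {M : Type v} [AddCommGroup M] [Module R M]

/-- The sequence is exact at `R^{k_0}`. -/
def FreeSeq.ExactAtZero (s : FreeSeq R M) : Prop := LinearMap.range (s.d 0) = LinearMap.ker s.e

/-- The sequence is exact at `R^{k_{i+1}}`. -/
def FreeSeq.ExactAtSucc (s : FreeSeq R M) (i : ℕ) : Prop :=
  LinearMap.range (s.d (i + 1)) = LinearMap.ker (s.d i)

end

/-- The `R`-module `M` is of type `FP_n`: there is an exact sequence
`R^{k_n} → ⋯ → R^{k_1} → R^{k_0} → M → 0` with finite ranks `k_i`. -/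
def IsFP (R : Type u) [Ring R] (n : ℕ) (M : Type v) [AddCommGroup M] [Module R M] : Prop :=
  ∃ s : FreeSeq R M, Function.Surjective s.e ∧ (1 ≤ n → s.ExactAtZero) ∧
    ∀ i, i + 2 ≤ n → s.ExactAtSucc i

/-- The group `G` is of type `FP_n` (over `ℤ`): the trivial module `ℤ` over the group ring `ℤ[G]` is
of type `FP_n`. -/
def TypeFP (n : ℕ) (G : Type u) [Group G] : Prop :=
  IsFP (MonoidAlgebra ℤ G) n (Representation.trivial ℤ G ℤ).asModule

/-- The group `G` is of type `F_n`, that is, it has a `K(G,1)` with finite `n`-skeleton, in its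
standard algebraic form (Wall): every group is of type `F_0`, type `F_1` is finite generation, and
for `n ≥ 2` type `F_n` is finite presentability together with type `FP_n`. -/
def TypeF (n : ℕ) (G : Type u) [Group G] : Prop :=
  match n with
  | 0 => True
  | 1 => Group.FG G
  | n + 2 => Group.IsFinitelyPresented G ∧ TypeFP (n + 2) G

end Pool.Agent.FType
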