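import Mathlib

set_option autoImplicit false

namespace Pool.Agent.QProd

universe u

/-- A collection `P` of nonempty subsets of `𝕊` and a group `Factor S` for each `S ∈ P`. -/
structure FactorSystem (𝕊 : Type u) where
  /-- the collection `P(𝕊)` -/
  P : Set (Set 𝕊)
  nonempty_of_mem : ∀ S ∈ P, S.Nonempty
  /-- the factors -/
  Factor : P → Type u
  /-- the group structures of the factors -/
  [group : ∀ S, Group (Factor S)]

attribute [instance] FactorSystem.group

variable {𝕊 : Type u}

/-- The disjoint union of all factors. -/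
abbrev FactorSystem.Elt (A : FactorSystem 𝕊) : Type u := Σ S : A.P, A.Factor S

/-- The set `S` with `x ∈ G_S`. -/
def FactorSystem.supp (A : FactorSystem 𝕊) (x : A.Elt) : Set 𝕊 := x.1

/-- Each `k ∈ G_S` maps each factor `G_R` with `R ⊊ S` isomorphically onto some factor `G_{R'}` with
`R' ⊊ S`. -/
def FactorSystem.ByIsos (A : FactorSystem 𝕊) (star : A.Elt → A.Elt → A.Elt) : Prop :=
  ∀ (k : A.Elt) (R : A.P), (R : Set 𝕊) ⊂ A.supp k →
    ∃ (R' : A.P) (φ : A.Factor R ≃* A.Factor R'), (R' : Set 𝕊) ⊂ A.supp k ∧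
      ∀ g : A.Factor R, star k ⟨R, g⟩ = ⟨R', φ g⟩

/-- Each `G_S` acts on the union of the factors `G_R` with `R ⊊ S`, from the right:
`(k k') ∗ x = k' ∗ (k ∗ x)`. -/
def FactorSystem.IsRightAction (A : FactorSystem 𝕊) (star : A.Elt → A.Elt → A.Elt) : Prop :=
  ∀ (S : A.P) (x : A.Elt), A.supp x ⊂ S → star ⟨S, 1⟩ x = x ∧
    ∀ k k' : A.Factor S, star ⟨S, k * k'⟩ x = star ⟨S, k'⟩ (star ⟨S, k⟩ x)

/-- The induced action on sets preserves inclusion and disjointness. -/
def FactorSystem.PreservesSets (A : FactorSystem 𝕊) (star : A.Elt → A.Elt → A.Elt) : Prop :=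
  ∀ k x y : A.Elt, A.supp x ⊂ A.supp k → A.supp y ⊂ A.supp k →
    (A.supp x ⊆ A.supp y → A.supp (star k x) ⊆ A.supp (star k y)) ∧
    (Disjoint (A.supp x) (A.supp y) → Disjoint (A.supp (star k x)) (A.supp (star k y)))

/-- The quandle relation `k ∗ (h ∗ g) = (k ∗ h) ∗ (k ∗ g)`. -/
def FactorSystem.QuandleRelation (A : FactorSystem 𝕊) (star : A.Elt → A.Elt → A.Elt) : Prop :=
  ∀ g h k : A.Elt, A.supp g ⊂ A.supp h → A.supp h ⊂ A.supp k →
    star k (star h g) = star (star k h) (star k g)

/-- The data defining a quandle product. `star h g` is `h ∗ g`; it is a total function on pairs of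
elements of factors, but only its values for `g ∈ G_R`, `h ∈ G_S`, `R ⊊ S` are constrained or
used. -/
structure QuandleSystem (𝕊 : Type u) extends FactorSystem 𝕊 where
  /-- `star h g` is `h ∗ g` -/
  star : toFactorSystem.Elt → toFactorSystem.Elt → toFactorSystem.Elt
  byIsos : toFactorSystem.ByIsos star
  isRightAction : toFactorSystem.IsRightAction star
  preservesSets : toFactorSystem.PreservesSets star
  quandleRelation : toFactorSystem.QuandleRelation star

/-- The free product of the factors. -/
abbrev FactorSystem.FreeProd (A : FactorSystem 𝕊) : Type u := Monoid.CoprodI A.Factor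

/-- An element of a factor as an element of the free product. -/
def FactorSystem.emb (A : FactorSystem 𝕊) (x : A.Elt) : A.FreeProd := Monoid.CoprodI.of x.2

/-- The relator `(a b)(c d)⁻¹` of the relation `a b = c d`. -/
def relator {G : Type u} [Group G] (a b c d : G) : G := (a * b) * (c * d)⁻¹

/-- The relators of the quandle product: `g h = h g` for `g`, `h` in factors of disjoint sets and
`g h = h (h ∗ g)` for `g ∈ G_R`, `h ∈ G_S`, `R ⊊ S`. -/
def QuandleSystem.relators (Q : QuandleSystem 𝕊) : Set Q.FreeProd :=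
  {w | ∃ g h : Q.Elt, Disjoint (Q.supp g) (Q.supp h) ∧
      w = relator (Q.emb g) (Q.emb h) (Q.emb h) (Q.emb g)} ∪
  {w | ∃ g h : Q.Elt, Q.supp g ⊂ Q.supp h ∧
      w = relator (Q.emb g) (Q.emb h) (Q.emb h) (Q.emb (Q.star h g))}

/-- The quandle product: the free product of the factors modulo the relators. -/
abbrev QuandleSystem.Product (Q : QuandleSystem 𝕊) : Type u :=
  Q.FreeProd ⧸ Subgroup.normalClosure Q.relators

end Pool.Agent.QProd
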