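import Mathlib
import Pool.Agent.QProd.QDef

set_option autoImplicit false

namespace Pool.Agent.QProd

universe u

variable {𝕊 : Type u}

namespace QuandleSystem

variable (Q : QuandleSystem 𝕊)

theorem star_iso (S R : Q.P) (h : (R : Set 𝕊) ⊂ S) (k : Q.Factor S) :
    ∃ (R' : Q.P) (φ : Q.Factor R ≃* Q.Factor R'), (R' : Set 𝕊) ⊂ S ∧
      ∀ g : Q.Factor R, Q.star ⟨S, k⟩ ⟨R, g⟩ = ⟨R', φ g⟩ := Q.byIsos ⟨S, k⟩ R h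

theorem star_one (S : Q.P) (x : Q.Elt) (h : (x.1 : Set 𝕊) ⊂ S) : Q.star ⟨S, 1⟩ x = x :=
  (Q.isRightAction S x h).1

theorem star_mul (S : Q.P) (k k' : Q.Factor S) (x : Q.Elt) (h : (x.1 : Set 𝕊) ⊂ S) :
    Q.star ⟨S, k * k'⟩ x = Q.star ⟨S, k'⟩ (Q.star ⟨S, k⟩ x) :=
  (Q.isRightAction S x h).2 k k'

theorem star_subset (S : Q.P) (k : Q.Factor S) (x y : Q.Elt) (hx : (x.1 : Set 𝕊) ⊂ S)
    (hy : (y.1 : Set 𝕊) ⊂ S) (h : (x.1 : Set 𝕊) ⊆ y.1) :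
    ((Q.star ⟨S, k⟩ x).1 : Set 𝕊) ⊆ (Q.star ⟨S, k⟩ y).1 :=
  (Q.preservesSets ⟨S, k⟩ x y hx hy).1 h

theorem star_disjoint (S : Q.P) (k : Q.Factor S) (x y : Q.Elt) (hx : (x.1 : Set 𝕊) ⊂ S)
    (hy : (y.1 : Set 𝕊) ⊂ S) (h : Disjoint (x.1 : Set 𝕊) y.1) :
    Disjoint ((Q.star ⟨S, k⟩ x).1 : Set 𝕊) (Q.star ⟨S, k⟩ y).1 :=
  (Q.preservesSets ⟨S, k⟩ x y hx hy).2 h

theorem star_star (g h k : Q.Elt) (hgh : (g.1 : Set 𝕊) ⊂ h.1) (hhk : (h.1 : Set 𝕊) ⊂ k.1) :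
    Q.star k (Q.star h g) = Q.star (Q.star k h) (Q.star k g) :=
  Q.quandleRelation g h k hgh hhk

end QuandleSystem

end Pool.Agent.QProd
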