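import Mathlib
import Pool.Agent.QProd.QLem

set_option autoImplicit false

namespace Pool.Agent.QProd

universe u v

variable {𝕊 : Type u} (Q : QuandleSystem 𝕊)

/-- relators for a subcollection `D` -/
def rels (D : Set Q.P) : Set (FreeGroup Q.Elt) :=
  {r | ∃ x : Q.Elt, x.1 ∉ D ∧ r = FreeGroup.of x} ∪
  {r | ∃ (S : Q.P) (g h : Q.Factor S), r = (FreeGroup.of (⟨S, g⟩ : Q.Elt) * FreeGroup.of ⟨S, h⟩) *
    (FreeGroup.of (⟨S, g * h⟩ : Q.Elt))⁻¹} ∪
  {r | ∃ x y : Q.Elt, x.1 ∈ D ∧ y.1 ∈ D ∧ Disjoint (x.1 : Set 𝕊) y.1 ∧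
    r = (FreeGroup.of x * FreeGroup.of y) * (FreeGroup.of y * FreeGroup.of x)⁻¹} ∪
  {r | ∃ x y : Q.Elt, x.1 ∈ D ∧ y.1 ∈ D ∧ (x.1 : Set 𝕊) ⊂ y.1 ∧
    r = (FreeGroup.of x * FreeGroup.of y) * (FreeGroup.of y * FreeGroup.of (Q.star y x))⁻¹}

/-- the quandle product of the subcollection `D` -/
abbrev QP (D : Set Q.P) : Type u := PresentedGroup (rels Q D)

/-- `D` is closed under passing to smaller members -/
def DownClosed (D : Set Q.P) : Prop := ∀ S ∈ D, ∀ R : Q.P, (R : Set 𝕊) ⊂ S → R ∈ D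

variable {Q}

/-- the image of an element of a factor -/
def el (D : Set Q.P) (x : Q.Elt) : QP Q D := PresentedGroup.of x

section Basic

variable {D : Set Q.P}

theorem rel_eq {a b : FreeGroup Q.Elt} (h : a * b⁻¹ ∈ rels Q D) :
    PresentedGroup.mk (rels Q D) a = PresentedGroup.mk (rels Q D) b := by
  have h1 : PresentedGroup.mk (rels Q D) (a * b⁻¹) = 1 :=
    (QuotientGroup.eq_one_iff _).mpr (Subgroup.subset_normalClosure h)
  rw [map_mul, map_inv, mul_inv_eq_one] at h1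
  exact h1

theorem el_not_mem {x : Q.Elt} (hx : x.1 ∉ D) : el D x = 1 := by
  have h1 : PresentedGroup.mk (rels Q D) (FreeGroup.of x) = 1 :=
    (QuotientGroup.eq_one_iff _).mpr (Subgroup.subset_normalClosure
      (Or.inl (Or.inl (Or.inl ⟨x, hx, rfl⟩))))
  exact h1

theorem el_mul (S : Q.P) (g h : Q.Factor S) : el D ⟨S, g * h⟩ = el D ⟨S, g⟩ * el D ⟨S, h⟩ := by
  have h1 : PresentedGroup.mk (rels Q D) (FreeGroup.of (⟨S, g⟩ : Q.Elt) * FreeGroup.of ⟨S, h⟩) =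
      PresentedGroup.mk (rels Q D) (FreeGroup.of (⟨S, g * h⟩ : Q.Elt)) :=
    rel_eq (Or.inl (Or.inl (Or.inr ⟨S, g, h, rfl⟩)))
  rw [map_mul] at h1
  exact h1.symm

theorem el_comm {x y : Q.Elt} (hx : x.1 ∈ D) (hy : y.1 ∈ D) (h : Disjoint (x.1 : Set 𝕊) y.1) :
    el D x * el D y = el D y * el D x := by
  have h1 : PresentedGroup.mk (rels Q D) (FreeGroup.of x * FreeGroup.of y) =
      PresentedGroup.mk (rels Q D) (FreeGroup.of y * FreeGroup.of x) :=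
    rel_eq (Or.inl (Or.inr ⟨x, y, hx, hy, h, rfl⟩))
  rw [map_mul, map_mul] at h1
  exact h1

theorem el_star {x y : Q.Elt} (hx : x.1 ∈ D) (hy : y.1 ∈ D) (h : (x.1 : Set 𝕊) ⊂ y.1) :
    el D x * el D y = el D y * el D (Q.star y x) := by
  have h1 : PresentedGroup.mk (rels Q D) (FreeGroup.of x * FreeGroup.of y) =
      PresentedGroup.mk (rels Q D) (FreeGroup.of y * FreeGroup.of (Q.star y x)) :=
    rel_eq (Or.inr ⟨x, y, hx, hy, h, rfl⟩)
  rw [map_mul, map_mul] at h1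
  exact h1

theorem el_one (S : Q.P) : el D ⟨S, 1⟩ = 1 := by
  have h := el_mul (D := D) S 1 1
  rw [mul_one] at h
  exact (mul_eq_left (a := el D ⟨S, 1⟩)).mp h.symm

/-- the factor as a subgroup -/
def elHom (D : Set Q.P) (S : Q.P) : Q.Factor S →* QP Q D where
  toFun g := el D ⟨S, g⟩
  map_one' := el_one S
  map_mul' g h := el_mul S g h

theorem elHom_apply (S : Q.P) (g : Q.Factor S) : elHom D S g = el D ⟨S, g⟩ := rfl

theorem hom_ext' {K : Type v} [Group K] {f g : QP Q D →* K} (h : ∀ x : Q.Elt, x.1 ∈ D →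
    f (el D x) = g (el D x)) : f = g := by
  apply PresentedGroup.ext
  intro x
  by_cases hx : x.1 ∈ D
  · exact h x hx
  · have h1 : (PresentedGroup.of x : QP Q D) = 1 := el_not_mem hx
    rw [h1, map_one, map_one]

theorem star_base {x y : Q.Elt} (h : (x.1 : Set 𝕊) ⊂ y.1) : ((Q.star y x).1 : Set 𝕊) ⊂ y.1 := by
  obtain ⟨S, k⟩ := y
  obtain ⟨R, g⟩ := x
  obtain ⟨R', φ, h1, h2⟩ := Q.star_iso S R h k
  rw [h2]
  exact h1

open Classical in
/-- homomorphisms out of `QP` -/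
noncomputable def lift' {K : Type v} [Group K] (hD : DownClosed Q D) (f : Q.Elt → K)
    (h1 : ∀ S ∈ D, ∀ g h : Q.Factor S, f ⟨S, g * h⟩ = f ⟨S, g⟩ * f ⟨S, h⟩)
    (h2 : ∀ x y : Q.Elt, x.1 ∈ D → y.1 ∈ D → Disjoint (x.1 : Set 𝕊) y.1 → f x * f y = f y * f x)
    (h3 : ∀ x y : Q.Elt, x.1 ∈ D → y.1 ∈ D → (x.1 : Set 𝕊) ⊂ y.1 →
      f x * f y = f y * f (Q.star y x)) : QP Q D →* K :=
  PresentedGroup.toGroup (f := fun x => if x.1 ∈ D then f x else 1) (by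
    rintro r (((⟨x, hx, rfl⟩ | ⟨S, g, h, rfl⟩) | ⟨x, y, hx, hy, hxy, rfl⟩) | ⟨x, y, hx, hy, hxy, rfl⟩)
    · simp [hx]
    · by_cases hS : S ∈ D
      · simp [hS, h1 S hS]
      · simp [hS]
    · simp only [map_mul, map_inv, FreeGroup.lift_apply_of, hx, hy, if_true]
      rw [h2 x y hx hy hxy, mul_inv_cancel]
    · have hz : (Q.star y x).1 ∈ D := hD _ hy _ (star_base hxy)
      simp only [map_mul, map_inv, FreeGroup.lift_apply_of, hx, hy, hz, if_true]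
      rw [h3 x y hx hy hxy, mul_inv_cancel])

theorem lift'_el {K : Type v} [Group K] (hD : DownClosed Q D) (f : Q.Elt → K)
    (h1 : ∀ S ∈ D, ∀ g h : Q.Factor S, f ⟨S, g * h⟩ = f ⟨S, g⟩ * f ⟨S, h⟩)
    (h2 : ∀ x y : Q.Elt, x.1 ∈ D → y.1 ∈ D → Disjoint (x.1 : Set 𝕊) y.1 → f x * f y = f y * f x)
    (h3 : ∀ x y : Q.Elt, x.1 ∈ D → y.1 ∈ D → (x.1 : Set 𝕊) ⊂ y.1 →
      f x * f y = f y * f (Q.star y x)) (x : Q.Elt) (hx : x.1 ∈ D) :
    lift' hD f h1 h2 h3 (el D x) = f x := by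
  unfold lift' el
  rw [PresentedGroup.toGroup.of]
  simp [hx]

/-- the map induced by an inclusion of subcollections -/
noncomputable def incl {D E : Set Q.P} (hD : DownClosed Q D) (h : D ⊆ E) : QP Q D →* QP Q E :=
  lift' hD (el E) (fun S _ g h => el_mul S g h)
    (fun _ _ hx hy hxy => el_comm (h hx) (h hy) hxy)
    (fun _ _ hx hy hxy => el_star (h hx) (h hy) hxy)

theorem incl_el {D E : Set Q.P} (hD : DownClosed Q D) (h : D ⊆ E) (x : Q.Elt) (hx : x.1 ∈ D) :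
    incl hD h (el D x) = el E x := lift'_el hD _ _ _ _ x hx

end Basic

end Pool.Agent.QProd
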