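import Mathlib
import Pool.Agent.QProd.GroupRing

set_option autoImplicit false

namespace Pool.Agent.QProd

open MonoidAlgebra

universe u v w

variable {N : Type u} {K : Type v} [Group N] [Group K] (φ : K →* MulAut N)

theorem isTrans_inl : IsTrans (SemidirectProduct.inl : N →* N ⋊[φ] K)
    (fun k : K => (SemidirectProduct.inr k : N ⋊[φ] K)) := by
  constructor
  constructor
  · rintro ⟨t, h⟩ ⟨t', h'⟩ heq
    simp only at heq
    have h1 := congrArg SemidirectProduct.right heq
    have h2 := congrArg SemidirectProduct.left heq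
    simp only [SemidirectProduct.mul_left, SemidirectProduct.mul_right,
      SemidirectProduct.left_inr, SemidirectProduct.right_inr, SemidirectProduct.left_inl,
      SemidirectProduct.right_inl, mul_one, one_mul] at h1 h2
    subst h1
    have h3 := (φ t).injective h2
    rw [h3]
  · intro g
    refine ⟨(g.right, φ (g.right)⁻¹ g.left), ?_⟩
    simp only
    ext
    · simp only [SemidirectProduct.mul_left, SemidirectProduct.left_inr,
        SemidirectProduct.right_inr, SemidirectProduct.left_inl, one_mul]
      rw [← MulAut.mul_apply, ← map_mul]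
      simp
    · simp

theorem typeFP_semidirect (n : ℕ) (hN : TypeFP n N) (hK : TypeFP n K) :
    TypeFP n (N ⋊[φ] K) := by
  let ψ : MonoidAlgebra ℤ (N ⋊[φ] K) →+* MonoidAlgebra ℤ K :=
    mapDomainRingHom ℤ (SemidirectProduct.rightHom : N ⋊[φ] K →* K)
  let i1 : Module (MonoidAlgebra ℤ (N ⋊[φ] K)) (MonoidAlgebra ℤ K) := Module.compHom _ ψ
  have hS : ∀ (r : MonoidAlgebra ℤ (N ⋊[φ] K)) (s : MonoidAlgebra ℤ K), r • s = ψ r • s :=
    fun _ _ => rfl
  have hψ : ∀ (g : N ⋊[φ] K) (m : ℤ), ψ (single g m) = single g.right m := by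
    intro g m
    show mapDomainRingHom ℤ _ (single g m) = _
    rw [mapDomainRingHom_apply, mapDomain_single]
    rfl
  -- the group ring of `K` is an induced module
  let j : Triv N →+ MonoidAlgebra ℤ K :=
    { toFun := fun m => single 1 (show ℤ from m)
      map_zero' := single_zero _
      map_add' := fun _ _ => single_add _ _ _ }
  have hj1 : ∀ m : ℤ, j m = single 1 m := fun m => rfl
  have hj : IsInd (mapDomainRingHom ℤ (SemidirectProduct.inl : N →* N ⋊[φ] K))
      (fun k : K => (single (SemidirectProduct.inr k : N ⋊[φ] K) 1 : MonoidAlgebra ℤ (N ⋊[φ] K))) j := by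
    constructor
    · intro r m
      induction r using MonoidAlgebra.induction_linear with
      | zero => simp
      | add a b ha hb => rw [add_smul, map_add, ha, hb, map_add, add_smul]
      | single h n =>
        rw [triv_smul, mapDomainRingHom_apply, mapDomain_single, hS, hψ]
        let m' : ℤ := m
        show j (n * m') = single _ n * single 1 m'
        rw [hj1, single_mul_single]
        simp
    · have h1 : ∀ y : K →₀ Triv N, indHom
          (fun k : K => (single (SemidirectProduct.inr k : N ⋊[φ] K) 1 : MonoidAlgebra ℤ (N ⋊[φ] K)))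
          j y = (coeffAddEquiv (R := ℤ) (M := K)).symm y := by
        intro y
        induction y using Finsupp.induction_linear with
        | zero => rw [map_zero]; exact (map_zero _).symm
        | add f g hf hg => rw [map_add, hf, hg]; exact (map_add _ _ _).symm
        | single t m =>
          rw [indHom_single, hS, hψ]
          let m' : ℤ := m
          show single _ 1 * single 1 m' = single t m'
          rw [single_mul_single]
          simp
      have h2 := (coeffAddEquiv (R := ℤ) (M := K)).symm.bijective
      constructor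
      · intro y z hyz
        rw [h1, h1] at hyz
        exact h2.1 hyz
      · intro z
        obtain ⟨y, hy⟩ := h2.2 z
        exact ⟨y, (h1 y).trans hy⟩
  have hFP : IsFP (MonoidAlgebra ℤ (N ⋊[φ] K)) n (MonoidAlgebra ℤ K) :=
    IsFP.ind (isTrans_inl φ).isInd n hj hN
  let i2 : Module (MonoidAlgebra ℤ (N ⋊[φ] K)) (Triv K) := Module.compHom _ ψ
  have hM : ∀ (r : MonoidAlgebra ℤ (N ⋊[φ] K)) (s : Triv K), r • s = ψ r • s :=
    fun _ _ => rfl
  have h1 := IsFP.restr ψ hS n hFP hM hK
  let f : Triv K ≃+ Triv (N ⋊[φ] K) := AddEquiv.refl ℤ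
  have hf : ∀ m : ℤ, f m = m := fun _ => rfl
  let F : Triv K →ₗ[MonoidAlgebra ℤ (N ⋊[φ] K)] Triv (N ⋊[φ] K) := mkLin f.toAddMonoidHom (by
    intro g m
    rw [triv_smul, hM, hψ, triv_smul]
    exact map_zsmul f _ _)
  exact h1.equiv (LinearEquiv.ofBijective F f.bijective)

end Pool.Agent.QProd
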