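import Mathlib
import Pool.Agent.QProd.Amalgam2
import Pool.Agent.QProd.Semidirect

set_option autoImplicit false

namespace Pool.Agent.QProd

universe u v

theorem fg_map {G H : Type*} [Group G] [Group H] {P : Subgroup G} (h : P.FG) (f : G →* H) :
    (P.map f).FG := by
  classical
  obtain ⟨s, hs⟩ := h
  exact ⟨s.image f, by rw [Finset.coe_image, ← MonoidHom.map_closure, hs]⟩

section Push

variable {A B C Q : Type u} [Group A] [Group B] [Group C] [Group Q]
variable {i : C →* A} {k : C →* B} {α : A →* Q} {β : B →* Q}

theorem IsPush.fg (h : IsPush i k α β) (hA : Group.FG A) (hB : Group.FG B) : Group.FG Q := by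
  rw [Group.fg_def] at *
  rw [← h.gen]
  apply Subgroup.FG.sup
  · rw [MonoidHom.range_eq_map]
    exact fg_map hA α
  · rw [MonoidHom.range_eq_map]
    exact fg_map hB β

theorem IsPush.fp (h : IsPush i k α β) (hA : Group.IsFinitelyPresented A)
    (hB : Group.IsFinitelyPresented B) (hC : Group.FG C) : Group.IsFinitelyPresented Q := by
  obtain ⟨S, hS⟩ := Group.fg_def.mp hC
  let r : C → Monoid.Coprod A B := fun c => Monoid.Coprod.inl (i c) * (Monoid.Coprod.inr (k c))⁻¹
  let N0 : Subgroup (Monoid.Coprod A B) := Subgroup.normalClosure (r '' (S : Set C))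
  let F : Monoid.Coprod A B →* Q := Monoid.Coprod.lift α β
  have hF : Function.Surjective F := by
    intro q
    have : q ∈ F.range := by
      refine h.induct F.range ?_ ?_ q
      · intro a; exact ⟨Monoid.Coprod.inl a, by simp [F]⟩
      · intro b; exact ⟨Monoid.Coprod.inr b, by simp [F]⟩
    exact this
  refine Group.IsFinitelyPresented.of_surjective F hF ⟨r '' (S : Set C), S.finite_toSet.image r, ?_⟩
  apply le_antisymm
  · apply Subgroup.normalClosure_le_normal
    rintro _ ⟨c, _, rfl⟩
    show F (r c) = 1
    have h1 : α (i c) = β (k c) := DFunLike.congr_fun h.comm c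
    simp [F, r, h1]
  · let f : A →* Monoid.Coprod A B ⧸ N0 := (QuotientGroup.mk' N0).comp Monoid.Coprod.inl
    let g : B →* Monoid.Coprod A B ⧸ N0 := (QuotientGroup.mk' N0).comp Monoid.Coprod.inr
    have hfg : f.comp i = g.comp k := by
      let E : Subgroup C := MonoidHom.eqLocus (f.comp i) (g.comp k)
      have hE : E = ⊤ := by
        rw [eq_top_iff, ← hS, Subgroup.closure_le]
        intro c hc
        show (QuotientGroup.mk' N0) (Monoid.Coprod.inl (i c)) =
          (QuotientGroup.mk' N0) (Monoid.Coprod.inr (k c))
        rw [← div_eq_one, ← map_div, div_eq_mul_inv, QuotientGroup.mk'_apply,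
          QuotientGroup.eq_one_iff]
        exact Subgroup.subset_normalClosure ⟨c, hc, rfl⟩
      ext1 c
      have : c ∈ E := by rw [hE]; trivial
      exact this
    obtain ⟨F', h1, h2⟩ := h.lift _ f g hfg
    have h3 : F'.comp F = QuotientGroup.mk' N0 := by
      apply Monoid.Coprod.hom_ext
      · ext1 a
        have := DFunLike.congr_fun h1 a
        simpa [F, f] using this
      · ext1 b
        have := DFunLike.congr_fun h2 b
        simpa [F, g] using this
    intro x hx
    have h4 : QuotientGroup.mk' N0 x = 1 := by
      rw [← h3, MonoidHom.comp_apply, MonoidHom.mem_ker.mp hx, map_one]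
    rw [QuotientGroup.mk'_apply, QuotientGroup.eq_one_iff] at h4
    exact h4

/-- In a pushout square over an injective span, the maps to the pushout are injective. -/
theorem IsPush.inj (h : IsPush i k α β) (hi : Function.Injective i) (hk : Function.Injective k) :
    Function.Injective α ∧ Function.Injective β := by
  let G : Bool → Type u := fun b => match b with
    | true => A
    | false => B
  let inst : ∀ b, Group (G b) := fun b => match b with
    | true => inferInstanceAs (Group A)
    | false => inferInstanceAs (Group B)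
  let ph : ∀ b, C →* G b := fun b => match b with
    | true => i
    | false => k
  have hph : ∀ b, Function.Injective (ph b) := fun b => match b with
    | true => hi
    | false => hk
  let f : A →* Monoid.PushoutI ph := Monoid.PushoutI.of (φ := ph) true
  let g : B →* Monoid.PushoutI ph := Monoid.PushoutI.of (φ := ph) false
  have hf : Function.Injective f := Monoid.PushoutI.of_injective hph true
  have hg : Function.Injective g := Monoid.PushoutI.of_injective hph false
  have hfg : f.comp i = g.comp k := by
    ext1 c
    show Monoid.PushoutI.of (φ := ph) true (ph true c) = Monoid.PushoutI.of (φ := ph) false (ph false c)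
    rw [Monoid.PushoutI.of_apply_eq_base, Monoid.PushoutI.of_apply_eq_base]
  obtain ⟨F', h1, h2⟩ := h.lift _ f g hfg
  constructor
  · rw [← h1, MonoidHom.coe_comp] at hf
    exact Function.Injective.of_comp hf
  · rw [← h2, MonoidHom.coe_comp] at hg
    exact Function.Injective.of_comp hg

end Push

section Semi

variable {N K : Type u} [Group N] [Group K] (φ : K →* MulAut N)

theorem semidirect_gen (S : Subgroup (N ⋊[φ] K)) (hN : ∀ n, SemidirectProduct.inl n ∈ S)
    (hK : ∀ k, SemidirectProduct.inr k ∈ S) (x : N ⋊[φ] K) : x ∈ S := by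
  rw [← SemidirectProduct.inl_left_mul_inr_right x]
  exact S.mul_mem (hN _) (hK _)

theorem fg_semidirect (hN : Group.FG N) (hK : Group.FG K) : Group.FG (N ⋊[φ] K) := by
  rw [Group.fg_def] at *
  have : (⊤ : Subgroup (N ⋊[φ] K)) = (⊤ : Subgroup N).map SemidirectProduct.inl ⊔
      (⊤ : Subgroup K).map SemidirectProduct.inr := by
    symm
    rw [eq_top_iff]
    intro x _
    refine semidirect_gen φ _ ?_ ?_ x
    · intro n
      exact Subgroup.mem_sup_left ⟨n, trivial, rfl⟩
    · intro k
      exact Subgroup.mem_sup_right ⟨k, trivial, rfl⟩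
  rw [this]
  exact Subgroup.FG.sup (fg_map hN _) (fg_map hK _)

theorem fp_semidirect (hN : Group.IsFinitelyPresented N) (hK : Group.IsFinitelyPresented K)
    (hN' : Group.FG N) (hK' : Group.FG K) : Group.IsFinitelyPresented (N ⋊[φ] K) := by
  obtain ⟨SN, hSN⟩ := Group.fg_def.mp hN'
  obtain ⟨SK, hSK⟩ := Group.fg_def.mp hK'
  let r : N × K → Monoid.Coprod N K := fun p =>
    Monoid.Coprod.inl (φ p.2 p.1) *
      (Monoid.Coprod.inr p.2 * Monoid.Coprod.inl p.1 * (Monoid.Coprod.inr p.2)⁻¹)⁻¹
  let W : Set (N × K) := (SN : Set N) ×ˢ (SK : Set K)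
  have hW : W.Finite := SN.finite_toSet.prod SK.finite_toSet
  let N0 : Subgroup (Monoid.Coprod N K) := Subgroup.normalClosure (r '' W)
  let F : Monoid.Coprod N K →* N ⋊[φ] K :=
    Monoid.Coprod.lift SemidirectProduct.inl SemidirectProduct.inr
  have hF : Function.Surjective F := by
    intro q
    have : q ∈ F.range := by
      refine semidirect_gen φ F.range ?_ ?_ q
      · intro a; exact ⟨Monoid.Coprod.inl a, by simp [F]⟩
      · intro b; exact ⟨Monoid.Coprod.inr b, by simp [F]⟩
    exact this
  refine Group.IsFinitelyPresented.of_surjective F hF ⟨r '' W, hW.image r, ?_⟩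
  apply le_antisymm
  · apply Subgroup.normalClosure_le_normal
    rintro _ ⟨⟨n, k⟩, _, rfl⟩
    show F (r (n, k)) = 1
    simp only [F, r, map_mul, map_inv, Monoid.Coprod.lift_apply_inl, Monoid.Coprod.lift_apply_inr]
    rw [SemidirectProduct.inl_aut, map_inv, mul_inv_cancel]
  · let f : N →* Monoid.Coprod N K ⧸ N0 := (QuotientGroup.mk' N0).comp Monoid.Coprod.inl
    let g : K →* Monoid.Coprod N K ⧸ N0 := (QuotientGroup.mk' N0).comp Monoid.Coprod.inr
    have h0 : ∀ k ∈ SK, ∀ n, f (φ k n) = g k * f n * (g k)⁻¹ := by
      intro k hk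
      let E : Subgroup N := MonoidHom.eqLocus (f.comp (φ k).toMonoidHom)
        ((MulAut.conj (g k)).toMonoidHom.comp f)
      have hE : E = ⊤ := by
        rw [eq_top_iff, ← hSN, Subgroup.closure_le]
        intro n hn
        show f (φ k n) = g k * f n * (g k)⁻¹
        show (QuotientGroup.mk' N0) (Monoid.Coprod.inl (φ k n)) =
          (QuotientGroup.mk' N0) (Monoid.Coprod.inr k) * (QuotientGroup.mk' N0) (Monoid.Coprod.inl n) *
            ((QuotientGroup.mk' N0) (Monoid.Coprod.inr k))⁻¹
        rw [← map_inv, ← map_mul, ← map_mul, ← div_eq_one, ← map_div, div_eq_mul_inv,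
          QuotientGroup.mk'_apply, QuotientGroup.eq_one_iff]
        exact Subgroup.subset_normalClosure ⟨(n, k), ⟨hn, hk⟩, rfl⟩
      intro n
      have : n ∈ E := by rw [hE]; trivial
      exact this
    have hfg : ∀ k, f.comp (φ k).toMonoidHom = (MulAut.conj (g k)).toMonoidHom.comp f := by
      let E : Subgroup K :=
        { carrier := {k | ∀ n, f (φ k n) = g k * f n * (g k)⁻¹}
          one_mem' := by intro n; simp
          mul_mem' := by
            intro a b ha hb n
            rw [map_mul, MulAut.mul_apply, ha, hb, map_mul]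
            group
          inv_mem' := by
            intro a ha n
            have := ha ((φ a)⁻¹ n)
            rw [MulAut.apply_inv_self] at this
            rw [map_inv, map_inv, this]
            group }
      have hE : E = ⊤ := by
        rw [eq_top_iff, ← hSK, Subgroup.closure_le]
        intro k hk
        exact h0 k hk
      intro k
      ext1 n
      have : k ∈ E := by rw [hE]; trivial
      exact this n
    let F' : N ⋊[φ] K →* Monoid.Coprod N K ⧸ N0 := SemidirectProduct.lift f g hfg
    have h3 : F'.comp F = QuotientGroup.mk' N0 := by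
      apply Monoid.Coprod.hom_ext
      · ext1 a
        simp [F, F', f]
      · ext1 b
        simp [F, F', g]
    intro x hx
    have h4 : QuotientGroup.mk' N0 x = 1 := by
      rw [← h3, MonoidHom.comp_apply, MonoidHom.mem_ker.mp hx, map_one]
    rw [QuotientGroup.mk'_apply, QuotientGroup.eq_one_iff] at h4
    exact h4

end Semi

end Pool.Agent.QProd
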