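import Mathlib
import Pool.Agent.QProd.FinPres

set_option autoImplicit false

namespace Pool.Agent.QProd

open MonoidAlgebra

universe u v

theorem fg_of_fp {G : Type u} [Group G] (h : Group.IsFinitelyPresented G) : Group.FG G := by
  obtain ⟨n, f, hf, _⟩ := h.out
  exact Group.fg_of_surjective hf

theorem typeFP_equiv {G H : Type u} [Group G] [Group H] (e : G ≃* H) (n : ℕ) (h : TypeFP n G) :
    TypeFP n H := by
  have h1 : IsTrans (e : G →* H) (fun _ : Unit => (1 : H)) := by
    constructor
    constructor
    · rintro ⟨_, a⟩ ⟨_, b⟩ hab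
      simp only [one_mul] at hab
      have : a = b := e.injective hab
      rw [this]
    · intro x
      exact ⟨((), e.symm x), by simp⟩
  let j : Triv G →+ Triv H := AddMonoidHom.id ℤ
  have hj1 : ∀ m : ℤ, j m = m := fun m => rfl
  have hj : IsInd (mapDomainRingHom ℤ (e : G →* H))
      (fun _ : Unit => (single (1 : H) 1 : MonoidAlgebra ℤ H)) j := by
    constructor
    · intro r m
      induction r using MonoidAlgebra.induction_linear with
      | zero => simp
      | add a b ha hb => rw [add_smul, map_add, ha, hb, map_add, add_smul]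
      | single h n =>
        rw [triv_smul, mapDomainRingHom_apply, mapDomain_single, triv_smul]
        exact map_zsmul j _ _
    · have h2 : ∀ y : Unit →₀ Triv G, indHom (fun _ : Unit => (single (1 : H) 1 : MonoidAlgebra ℤ H))
          j y = j (y ()) := by
        intro y
        induction y using Finsupp.induction_linear with
        | zero => simp
        | add f g hf hg => rw [map_add, hf, hg, Finsupp.add_apply]; exact (map_add j _ _).symm
        | single t m =>
          rw [indHom_single, triv_smul, one_smul]
          simp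
      constructor
      · intro y z hyz
        rw [h2, h2] at hyz
        ext
        exact hyz
      · intro z
        let z' : Triv G := z
        refine ⟨Finsupp.single () z', ?_⟩
        rw [h2, Finsupp.single_eq_same]
        rfl
  exact IsFP.ind h1.isInd n hj h

theorem typeFP_of_subsingleton (n : ℕ) (G : Type u) [Group G] [Subsingleton G] : TypeFP n G := by
  have h := isFP_self (R := MonoidAlgebra ℤ G) n
  let o : Triv G := (1 : ℤ)
  let f := LinearMap.toSpanSingleton (MonoidAlgebra ℤ G) (Triv G) o
  have hf : ∀ m : ℤ, f (single 1 m) = (show Triv G from m) := by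
    intro m
    rw [LinearMap.toSpanSingleton_apply, triv_smul]
    show m • (1 : ℤ) = m
    simp
  have hsur : ∀ r : MonoidAlgebra ℤ G, ∃ m, r = single 1 m := by
    intro r
    induction r using MonoidAlgebra.induction_linear with
    | zero => exact ⟨0, by simp⟩
    | add a b ha hb =>
      obtain ⟨x, hx⟩ := ha
      obtain ⟨y, hy⟩ := hb
      exact ⟨x + y, by rw [hx, hy, single_add]⟩
    | single g n => exact ⟨n, by rw [Subsingleton.elim g 1]⟩
  have hbij : Function.Bijective f := by
    constructor
    · intro x y hxy
      obtain ⟨a, rfl⟩ := hsur x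
      obtain ⟨b, rfl⟩ := hsur y
      rw [hf, hf] at hxy
      have : a = b := hxy
      rw [this]
    · intro m
      exact ⟨single 1 (show ℤ from m), hf _⟩
  exact h.equiv (LinearEquiv.ofBijective f hbij)

theorem TypeF.typeFP {n : ℕ} {G : Type u} [Group G] (h : TypeF (n + 2) G) : TypeFP (n + 2) G := h.2

theorem TypeF.equiv {G H : Type u} [Group G] [Group H] (e : G ≃* H) {n : ℕ} (h : TypeF n G) :
    TypeF n H := by
  match n, h with
  | 0, _ => trivial
  | 1, h =>
    have : Group.FG G := h
    exact Group.fg_of_surjective (f := (e : G →* H)) e.surjective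
  | n + 2, ⟨h1, h2⟩ => exact ⟨Group.IsFinitelyPresented.equiv e, typeFP_equiv e _ h2⟩

theorem typeF_of_subsingleton (n : ℕ) (G : Type u) [Group G] [Subsingleton G] : TypeF n G := by
  have hfp : Group.IsFinitelyPresented G := inferInstance
  match n with
  | 0 => trivial
  | 1 => exact fg_of_fp hfp
  | n + 2 => exact ⟨hfp, typeFP_of_subsingleton _ _⟩

theorem typeF_semidirect {N K : Type u} [Group N] [Group K] (φ : K →* MulAut N) {n : ℕ}
    (hN : TypeF n N) (hK : TypeF n K) : TypeF n (N ⋊[φ] K) := by
  match n, hN, hK with
  | 0, _, _ => trivial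
  | 1, hN, hK => exact fg_semidirect φ hN hK
  | n + 2, hN, hK =>
    exact ⟨fp_semidirect φ hN.1 hK.1 (fg_of_fp hN.1) (fg_of_fp hK.1),
      typeFP_semidirect φ _ hN.2 hK.2⟩

theorem IsPush.typeF {A B C Q : Type u} [Group A] [Group B] [Group C] [Group Q]
    {i : C →* A} {k : C →* B} {α : A →* Q} {β : B →* Q} (h : IsPush i k α β)
    (hi : Function.Injective i) (hk : Function.Injective k) {n : ℕ}
    (hA : TypeF n A) (hB : TypeF n B) (hC : TypeF n C) : TypeF n Q := by
  match n, hA, hB, hC with
  | 0, _, _, _ => trivial
  | 1, hA, hB, _ => exact h.fg hA hB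
  | n + 2, hA, hB, hC =>
    obtain ⟨h1, h2⟩ := h.inj hi hk
    exact ⟨h.fp hA.1 hB.1 (fg_of_fp hC.1),
      typeFP_amalgam (n + 1) h hi h1 h2 hA.2 hB.2 (IsFP.mono (by omega) hC.2)⟩

end Pool.Agent.QProd
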