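import Mathlib
import Pool.Agent.QProd.QP
import Pool.Agent.QProd.TypeF

set_option autoImplicit false

namespace Pool.Agent.QProd

universe u v

variable {𝕊 : Type u} {Q : QuandleSystem 𝕊}

section Split

variable (D : Set Q.P) (M : Q.P)

/-- the members of `D` below `M` or disjoint from `M` -/
def Nb : Set Q.P := {R | R ∈ D ∧ ((R : Set 𝕊) ⊂ M ∨ Disjoint (R : Set 𝕊) M)}

variable {D M}

theorem Nb_down (hD : DownClosed Q D) : DownClosed Q (Nb D M) := by
  rintro S ⟨hS, h⟩ R hR
  refine ⟨hD S hS R hR, ?_⟩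
  rcases h with h | h
  · exact Or.inl (hR.trans h)
  · exact Or.inr (h.mono_left hR.subset)

theorem Nb_subset : Nb D M ⊆ D \ {M} := by
  rintro S ⟨hS, h⟩
  refine ⟨hS, ?_⟩
  intro hSM
  rw [Set.mem_singleton_iff] at hSM
  subst hSM
  rcases h with h | h
  · exact h.ne rfl
  · rw [disjoint_self] at h
    exact (Q.nonempty_of_mem _ S.2).ne_empty h

theorem sdiff_down (hD : DownClosed Q D) (hM : ∀ S ∈ D, ¬ ((M : Set 𝕊) ⊂ S)) :
    DownClosed Q (D \ {M}) := by
  rintro S ⟨hS, h⟩ R hR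
  refine ⟨hD S hS R hR, ?_⟩
  intro hRM
  rw [Set.mem_singleton_iff] at hRM
  subst hRM
  exact hM S hS hR

theorem not_sub_of_disjoint {R S : Q.P} (h : Disjoint (R : Set 𝕊) S) : ¬ ((R : Set 𝕊) ⊂ S) := by
  intro h2
  have h3 : Disjoint (R : Set 𝕊) R := h.mono_right h2.subset
  rw [disjoint_self] at h3
  exact (Q.nonempty_of_mem _ R.2).ne_empty h3

open Classical in
/-- the action of the factor of `M` on elements -/
noncomputable def cAct (M : Q.P) (k : Q.Factor M) (x : Q.Elt) : Q.Elt :=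
  if (x.1 : Set 𝕊) ⊂ M then Q.star ⟨M, k⟩ x else x

theorem cAct_pos (k : Q.Factor M) {x : Q.Elt} (h : (x.1 : Set 𝕊) ⊂ M) :
    cAct M k x = Q.star ⟨M, k⟩ x := if_pos h

theorem cAct_neg (k : Q.Factor M) {x : Q.Elt} (h : ¬ ((x.1 : Set 𝕊) ⊂ M)) :
    cAct M k x = x := if_neg h

theorem star_base' (k : Q.Factor M) {x : Q.Elt} (h : (x.1 : Set 𝕊) ⊂ M) :
    ((Q.star ⟨M, k⟩ x).1 : Set 𝕊) ⊂ M := star_base (y := ⟨M, k⟩) h

theorem cAct_one (x : Q.Elt) : cAct M 1 x = x := by
  by_cases h : (x.1 : Set 𝕊) ⊂ M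
  · rw [cAct_pos _ h, Q.star_one M x h]
  · rw [cAct_neg _ h]

theorem cAct_mul (k k' : Q.Factor M) (x : Q.Elt) : cAct M (k * k') x = cAct M k' (cAct M k x) := by
  by_cases h : (x.1 : Set 𝕊) ⊂ M
  · rw [cAct_pos _ h, cAct_pos k h, cAct_pos k' (star_base' k h), Q.star_mul M k k' x h]
  · rw [cAct_neg _ h, cAct_neg k h, cAct_neg k' h]

theorem cAct_mem (hD : DownClosed Q D) (hMD : M ∈ D) (k : Q.Factor M) {x : Q.Elt}
    (hx : x.1 ∈ Nb D M) : (cAct M k x).1 ∈ Nb D M := by
  by_cases h : (x.1 : Set 𝕊) ⊂ M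
  · rw [cAct_pos _ h]
    exact ⟨hD M hMD _ (star_base' k h), Or.inl (star_base' k h)⟩
  · rwa [cAct_neg _ h]

theorem star_ssubset (k : Q.Factor M) {x y : Q.Elt} (hx : (x.1 : Set 𝕊) ⊂ y.1)
    (hy : (y.1 : Set 𝕊) ⊂ M) :
    ((Q.star ⟨M, k⟩ x).1 : Set 𝕊) ⊂ (Q.star ⟨M, k⟩ y).1 := by
  have hxM := hx.trans hy
  have h1 := Q.star_subset M k x y hxM hy hx.subset
  refine ssubset_of_subset_not_subset h1 ?_
  intro h2
  have h3 := Q.star_subset M k⁻¹ (Q.star ⟨M, k⟩ y) (Q.star ⟨M, k⟩ x) (star_base' k hy)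
    (star_base' k hxM) h2
  rw [← Q.star_mul M k k⁻¹ y hy, ← Q.star_mul M k k⁻¹ x hxM, mul_inv_cancel,
    Q.star_one M y hy, Q.star_one M x hxM] at h3
  exact hx.not_subset h3

/-- the endomorphism of `QP (Nb D M)` given by an element of the factor of `M` -/
noncomputable def theta (hD : DownClosed Q D) (hMD : M ∈ D) (k : Q.Factor M) :
    QP Q (Nb D M) →* QP Q (Nb D M) :=
  lift' (Nb_down hD) (fun x => el (Nb D M) (cAct M k x))
    (by
      intro S hS g h
      by_cases hSM : (S : Set 𝕊) ⊂ M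
      · obtain ⟨R', φ, h1, h2⟩ := Q.star_iso M S hSM k
        rw [cAct_pos (x := ⟨S, g * h⟩) k hSM, cAct_pos (x := ⟨S, g⟩) k hSM,
          cAct_pos (x := ⟨S, h⟩) k hSM, h2, h2, h2, map_mul, el_mul]
      · rw [cAct_neg (x := ⟨S, g * h⟩) k hSM, cAct_neg (x := ⟨S, g⟩) k hSM,
          cAct_neg (x := ⟨S, h⟩) k hSM, el_mul])
    (by
      intro x y hx hy hxy
      apply el_comm (cAct_mem hD hMD k hx) (cAct_mem hD hMD k hy)
      by_cases h1 : (x.1 : Set 𝕊) ⊂ M
      · by_cases h2 : (y.1 : Set 𝕊) ⊂ M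
        · rw [cAct_pos k h1, cAct_pos k h2]
          exact Q.star_disjoint M k x y h1 h2 hxy
        · rw [cAct_pos k h1, cAct_neg k h2]
          have h3 : Disjoint (y.1 : Set 𝕊) M := hy.2.resolve_left h2
          exact h3.symm.mono_left (star_base' k h1).subset
      · by_cases h2 : (y.1 : Set 𝕊) ⊂ M
        · rw [cAct_neg k h1, cAct_pos k h2]
          have h3 : Disjoint (x.1 : Set 𝕊) M := hx.2.resolve_left h1
          exact h3.mono_right (star_base' k h2).subset
        · rw [cAct_neg k h1, cAct_neg k h2]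
          exact hxy)
    (by
      intro x y hx hy hxy
      by_cases h2 : (y.1 : Set 𝕊) ⊂ M
      · have h1 := hxy.trans h2
        have h3 : ((Q.star y x).1 : Set 𝕊) ⊂ M := (star_base hxy).trans h2
        rw [cAct_pos k h1, cAct_pos k h2, cAct_pos k h3, Q.star_star x y ⟨M, k⟩ hxy h2]
        apply el_star
        · rw [← cAct_pos k h1]; exact cAct_mem hD hMD k hx
        · rw [← cAct_pos k h2]; exact cAct_mem hD hMD k hy
        · exact star_ssubset k hxy h2
      · have h3 : Disjoint (y.1 : Set 𝕊) M := hy.2.resolve_left h2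
        have h1 : ¬ ((x.1 : Set 𝕊) ⊂ M) := not_sub_of_disjoint (h3.mono_left hxy.subset)
        have h4 : ¬ (((Q.star y x).1 : Set 𝕊) ⊂ M) :=
          not_sub_of_disjoint (h3.mono_left (star_base hxy).subset)
        rw [cAct_neg k h1, cAct_neg k h2, cAct_neg k h4]
        exact el_star hx hy hxy)

theorem theta_el (hD : DownClosed Q D) (hMD : M ∈ D) (k : Q.Factor M) (x : Q.Elt)
    (hx : x.1 ∈ Nb D M) : theta hD hMD k (el (Nb D M) x) = el (Nb D M) (cAct M k x) :=
  lift'_el (Nb_down hD) _ _ _ _ x hx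

theorem theta_mul (hD : DownClosed Q D) (hMD : M ∈ D) (k k' : Q.Factor M) :
    theta hD hMD (k * k') = (theta hD hMD k').comp (theta hD hMD k) := by
  apply hom_ext'
  intro x hx
  rw [MonoidHom.comp_apply, theta_el _ _ _ _ hx, theta_el _ _ _ _ hx,
    theta_el _ _ _ _ (cAct_mem hD hMD k hx), cAct_mul]

theorem theta_one (hD : DownClosed Q D) (hMD : M ∈ D) :
    theta hD hMD (1 : Q.Factor M) = MonoidHom.id _ := by
  apply hom_ext'
  intro x hx
  rw [theta_el _ _ _ _ hx, cAct_one]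
  rfl

/-- the action of the factor of `M` by automorphisms -/
noncomputable def phi (hD : DownClosed Q D) (hMD : M ∈ D) : Q.Factor M →* MulAut (QP Q (Nb D M)) where
  toFun k := MonoidHom.toMulEquiv (theta hD hMD k⁻¹) (theta hD hMD k)
    (by rw [← theta_mul, inv_mul_cancel, theta_one])
    (by rw [← theta_mul, mul_inv_cancel, theta_one])
  map_one' := by
    apply MulEquiv.ext
    intro x
    show theta hD hMD (1 : Q.Factor M)⁻¹ x = x
    rw [inv_one, theta_one]
    rfl
  map_mul' k k' := by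
    apply MulEquiv.ext
    intro x
    show theta hD hMD (k * k')⁻¹ x = theta hD hMD k⁻¹ (theta hD hMD k'⁻¹ x)
    rw [mul_inv_rev, theta_mul]
    rfl

theorem phi_apply (hD : DownClosed Q D) (hMD : M ∈ D) (k : Q.Factor M) (x : QP Q (Nb D M)) :
    phi hD hMD k x = theta hD hMD k⁻¹ x := rfl

theorem el_conj (hMD : M ∈ D) (k : Q.Factor M) (x : Q.Elt)
    (hx : x.1 ∈ Nb D M) :
    el D (cAct M k⁻¹ x) = el D ⟨M, k⟩ * el D x * (el D ⟨M, k⟩)⁻¹ := by
  rw [← elHom_apply M k]
  rcases hx.2 with h | h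
  · rw [cAct_pos _ h]
    have h1 := el_star (D := D) (x := x) (y := ⟨M, k⁻¹⟩) hx.1 hMD h
    rw [← elHom_apply M k⁻¹, map_inv] at h1
    rw [eq_mul_inv_iff_mul_eq]
    have h2 : el D (Q.star ⟨M, k⁻¹⟩ x) = elHom D M k * (el D x * (elHom D M k)⁻¹) := by
      rw [h1]; group
    rw [h2]
    group
  · rw [cAct_neg _ (not_sub_of_disjoint h)]
    have h1 := el_comm (D := D) (x := x) (y := ⟨M, k⟩) hx.1 hMD h
    rw [← elHom_apply M k] at h1
    rw [← h1]
    group

theorem incl_incl {D E F : Set Q.P} (hD : DownClosed Q D) (hE : DownClosed Q E) (h : D ⊆ E)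
    (h' : E ⊆ F) : (incl hE h').comp (incl hD h) = incl hD (h.trans h') := by
  apply hom_ext'
  intro x hx
  rw [MonoidHom.comp_apply, incl_el _ _ _ hx, incl_el _ _ _ (h hx), incl_el _ _ _ hx]

/-- the map from the semidirect product -/
noncomputable def beta (hD : DownClosed Q D) (hMD : M ∈ D) :
    QP Q (Nb D M) ⋊[phi hD hMD] Q.Factor M →* QP Q D :=
  SemidirectProduct.lift (incl (Nb_down hD) (Nb_subset.trans Set.sdiff_subset)) (elHom D M) (by
    intro k
    apply hom_ext'
    intro x hx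
    show incl (Nb_down hD) (Nb_subset.trans Set.sdiff_subset) (theta hD hMD k⁻¹ (el _ x)) =
      elHom D M k * incl (Nb_down hD) (Nb_subset.trans Set.sdiff_subset) (el _ x) *
        (elHom D M k)⁻¹
    rw [theta_el _ _ _ _ hx, incl_el _ _ _ (cAct_mem hD hMD _ hx), incl_el _ _ _ hx,
      el_conj hMD k x hx, elHom_apply])

theorem isPush_split (hD : DownClosed Q D) (hMD : M ∈ D) (hM : ∀ S ∈ D, ¬ ((M : Set 𝕊) ⊂ S)) :
    IsPush (incl (Nb_down hD) (Nb_subset (D := D) (M := M)))
      (SemidirectProduct.inl : QP Q (Nb D M) →* QP Q (Nb D M) ⋊[phi hD hMD] Q.Factor M)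
      (incl (sdiff_down hD hM) (Set.sdiff_subset : D \ {M} ⊆ D))
      (beta hD hMD) := by
  classical
  constructor
  · rw [incl_incl]
    unfold beta
    rw [SemidirectProduct.lift_comp_inl]
  · rw [eq_top_iff, ← PresentedGroup.closure_range_of, Subgroup.closure_le]
    rintro _ ⟨x, rfl⟩
    by_cases hx : x.1 ∈ D
    · by_cases hxM : x.1 = M
      · apply Subgroup.mem_sup_right
        obtain ⟨S, g⟩ := x
        simp only at hxM
        subst hxM
        refine ⟨SemidirectProduct.inr g, ?_⟩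
        unfold beta
        rw [SemidirectProduct.lift_inr]
        rfl
      · apply Subgroup.mem_sup_left
        exact ⟨el _ x, incl_el _ _ x ⟨hx, hxM⟩⟩
    · have : (PresentedGroup.of x : QP Q D) = 1 := el_not_mem hx
      rw [this]
      exact Subgroup.one_mem _
  · intro K _ f h hfh
    -- the values on elements
    have hfh' : ∀ x : Q.Elt, x.1 ∈ Nb D M → f (el _ x) = h (SemidirectProduct.inl (el _ x)) := by
      intro x hx
      have := DFunLike.congr_fun hfh (el _ x)
      rw [MonoidHom.comp_apply, MonoidHom.comp_apply, incl_el _ _ _ hx] at this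
      exact this
    let F0 : Q.Elt → K := fun x => if hx : x.1 = M then
      h (SemidirectProduct.inr (hx ▸ x.2)) else f (el _ x)
    have hF0M : ∀ k : Q.Factor M, F0 ⟨M, k⟩ = h (SemidirectProduct.inr k) := by
      intro k
      simp [F0]
    have hF0 : ∀ x : Q.Elt, x.1 ≠ M → F0 x = f (el _ x) := by
      intro x hx
      simp [F0, hx]
    have hNbM : ∀ x : Q.Elt, x.1 ∈ Nb D M → x.1 ≠ M := fun x hx => (Nb_subset hx).2
    have hconj : ∀ (k : Q.Factor M) (x : Q.Elt), x.1 ∈ Nb D M →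
        F0 x * F0 ⟨M, k⟩ = F0 ⟨M, k⟩ * F0 (cAct M k x) := by
      intro k x hx
      have h1 := cAct_mem hD hMD k hx
      rw [hF0M, hF0 x (hNbM x hx), hF0 _ (hNbM _ h1), hfh' x hx, hfh' _ h1, ← map_mul, ← map_mul]
      congr 1
      have h2 : (SemidirectProduct.inl (phi hD hMD k⁻¹ (el _ x)) :
          QP Q (Nb D M) ⋊[phi hD hMD] Q.Factor M) = _ := SemidirectProduct.inl_aut _ _
      rw [phi_apply, inv_inv, theta_el _ _ _ _ hx] at h2
      rw [h2]
      simp [mul_assoc]
    refine ⟨lift' hD F0 ?_ ?_ ?_, ?_, ?_⟩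
    · intro S hS g g'
      by_cases hSM : S = M
      · subst hSM
        rw [hF0M, hF0M, hF0M, map_mul, map_mul]
      · rw [hF0 _ hSM, hF0 _ hSM, hF0 _ hSM, el_mul, map_mul]
    · intro x y hx hy hxy
      by_cases hxM : x.1 = M
      · obtain ⟨S, g⟩ := x
        simp only at hxM
        subst hxM
        have hyN : y.1 ∈ Nb D S := ⟨hy, Or.inr hxy.symm⟩
        have := hconj g y hyN
        rw [cAct_neg _ (not_sub_of_disjoint hxy.symm)] at this
        exact this.symm
      · by_cases hyM : y.1 = M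
        · obtain ⟨S, g⟩ := y
          simp only at hyM
          subst hyM
          have hxN : x.1 ∈ Nb D S := ⟨hx, Or.inr hxy⟩
          have := hconj g x hxN
          rw [cAct_neg _ (not_sub_of_disjoint hxy)] at this
          exact this
        · rw [hF0 _ hxM, hF0 _ hyM, ← map_mul, ← map_mul]
          congr 1
          exact el_comm ⟨hx, hxM⟩ ⟨hy, hyM⟩ hxy
    · intro x y hx hy hxy
      by_cases hyM : y.1 = M
      · obtain ⟨S, g⟩ := y
        simp only at hyM
        subst hyM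
        have hxN : x.1 ∈ Nb D S := ⟨hx, Or.inl hxy⟩
        have := hconj g x hxN
        rw [cAct_pos _ hxy] at this
        exact this
      · have hxM : x.1 ≠ M := by
          intro h1
          rw [h1] at hxy
          exact hM _ hy hxy
        have hsM : (Q.star y x).1 ≠ M := by
          intro h1
          have h2 := star_base hxy
          rw [h1] at h2
          exact hM _ hy h2
        rw [hF0 _ hxM, hF0 _ hyM, hF0 _ hsM, ← map_mul, ← map_mul]
        congr 1
        exact el_star ⟨hx, hxM⟩ ⟨hy, hyM⟩ hxy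
    · apply hom_ext'
      intro x hx
      rw [MonoidHom.comp_apply, incl_el _ _ _ hx, lift'_el _ _ _ _ _ _ hx.1, hF0 _ hx.2]
    · apply SemidirectProduct.hom_ext
      · apply hom_ext'
        intro x hx
        rw [MonoidHom.comp_apply, MonoidHom.comp_apply, MonoidHom.comp_apply]
        unfold beta
        rw [SemidirectProduct.lift_inl, incl_el _ _ _ hx, lift'_el _ _ _ _ _ _ hx.1,
          hF0 _ (hNbM x hx), hfh' x hx]
      · ext1 k
        rw [MonoidHom.comp_apply, MonoidHom.comp_apply, MonoidHom.comp_apply]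
        unfold beta
        rw [SemidirectProduct.lift_inr, elHom_apply, lift'_el _ _ _ _ _ _ hMD, hF0M]

end Split

end Pool.Agent.QProd
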