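import Mathlib
import Pool.Agent.QProd.Split

set_option autoImplicit false

namespace Pool.Agent.QProd

universe u v

variable {𝕊 : Type u} {Q : QuandleSystem 𝕊}

theorem lt_iff_ssubset' (R S : Q.P) : R < S ↔ (R : Set 𝕊) ⊂ S := Iff.rfl

theorem exists_max {D E : Set Q.P} (hD : DownClosed Q D) (h : D ⊆ E) (hne : D ≠ E)
    (hfin : E.Finite) : ∃ M ∈ E, M ∉ D ∧ ∀ S ∈ E, ¬ ((M : Set 𝕊) ⊂ S) := by
  have h1 : (E \ D).Nonempty := by
    by_contra hcon
    rw [Set.not_nonempty_iff_eq_empty, Set.sdiff_eq_empty] at hcon
    exact hne (Set.Subset.antisymm h hcon)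
  obtain ⟨M, hM⟩ := (hfin.sdiff (t := D)).exists_maximal h1
  refine ⟨M, hM.prop.1, hM.prop.2, ?_⟩
  intro S hS hMS
  by_cases hSD : S ∈ D
  · exact hM.prop.2 (hD S hSD M hMS)
  · have h2 : M < S := hMS
    exact hM.not_gt ⟨hS, hSD⟩ h2

theorem incl_injective_aux (n : ℕ) : ∀ (D E : Set Q.P) (hD : DownClosed Q D) (_ : DownClosed Q E)
    (h : D ⊆ E) (_ : E.Finite), E.ncard = n → Function.Injective (incl hD h) := by
  induction n with
  | zero =>
    intro D E hD hE h hfin hn
    have h1 : E = ∅ := (Set.ncard_eq_zero hfin).mp hn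
    subst h1
    have h2 : D = ∅ := Set.subset_eq_empty h rfl
    subst h2
    have : incl hD h = MonoidHom.id _ := by
      apply hom_ext'
      intro x hx
      exact absurd hx (by simp)
    rw [this]
    exact Function.injective_id
  | succ n ih =>
    intro D E hD hE h hfin hn
    by_cases hDE : D = E
    · subst hDE
      have : incl hD h = MonoidHom.id _ := by
        apply hom_ext'
        intro x hx
        rw [incl_el _ _ _ hx]
        rfl
      rw [this]
      exact Function.injective_id
    · obtain ⟨M, hME, hMD, hM⟩ := exists_max hD h hDE hfin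
      have hE' := sdiff_down hE hM
      have hfin' : (E \ {M}).Finite := hfin.sdiff
      have hcard : (E \ {M}).ncard = n := by
        rw [Set.ncard_sdiff_singleton_of_mem hME, hn]
        rfl
      have hDE' : D ⊆ E \ {M} := fun S hS => ⟨h hS, fun hSM => by
        rw [Set.mem_singleton_iff] at hSM
        subst hSM
        exact hMD hS⟩
      have i1 := ih D (E \ {M}) hD hE' hDE' hfin' hcard
      have i2 := ih (Nb E M) (E \ {M}) (Nb_down hE) hE' Nb_subset hfin' hcard
      have i3 := ((isPush_split hE hME hM).inj i2 SemidirectProduct.inl_injective).1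
      have h4 : incl hD h = (incl hE' Set.sdiff_subset).comp (incl hD hDE') :=
        (incl_incl hD hE' hDE' Set.sdiff_subset).symm
      rw [h4, MonoidHom.coe_comp]
      exact i3.comp i1

/-- Subcollections closed downwards give subgroups. -/
theorem incl_injective {D E : Set Q.P} (hD : DownClosed Q D) (hE : DownClosed Q E) (h : D ⊆ E)
    (hfin : E.Finite) : Function.Injective (incl hD h) :=
  incl_injective_aux _ D E hD hE h hfin rfl

theorem typeF_QP_aux (m n : ℕ) : ∀ (D : Set Q.P) (_ : DownClosed Q D) (_ : D.Finite),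
    D.ncard = m → (∀ S ∈ D, TypeF n (Q.Factor S)) → TypeF n (QP Q D) := by
  induction m using Nat.strong_induction_on with
  | _ m ih =>
    intro D hD hfin hm hF
    by_cases hDE : (∅ : Set Q.P) = D
    · subst hDE
      have : Subsingleton (QP Q (∅ : Set Q.P)) := by
        have h1 : MonoidHom.id (QP Q (∅ : Set Q.P)) = 1 := by
          apply hom_ext'
          intro x hx
          exact absurd hx (by simp)
        constructor
        intro a b
        have ha := DFunLike.congr_fun h1 a
        have hb := DFunLike.congr_fun h1 b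
        simp only [MonoidHom.id_apply, MonoidHom.one_apply] at ha hb
        rw [ha, hb]
      exact typeF_of_subsingleton n _
    · obtain ⟨M, hMD, _, hM⟩ := exists_max (D := (∅ : Set Q.P)) (E := D)
        (fun S hS => absurd hS (by simp)) (Set.empty_subset _) hDE hfin
      have hD' := sdiff_down hD hM
      have hfin' : (D \ {M}).Finite := hfin.sdiff
      have hpos : 0 < D.ncard := by
        rw [Set.ncard_pos hfin]
        exact ⟨M, hMD⟩
      have hcard : (D \ {M}).ncard < m := by
        rw [Set.ncard_sdiff_singleton_of_mem hMD]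
        omega
      have hcard2 : (Nb D M).ncard < m :=
        lt_of_le_of_lt (Set.ncard_le_ncard Nb_subset hfin') hcard
      have t1 := ih _ hcard (D \ {M}) hD' hfin' rfl (fun S hS => hF S hS.1)
      have t2 := ih _ hcard2 (Nb D M) (Nb_down hD) (hfin'.subset Nb_subset) rfl
        (fun S hS => hF S hS.1)
      have t3 := typeF_semidirect (phi hD hMD) t2 (hF M hMD)
      exact (isPush_split hD hMD hM).typeF (incl_injective (Nb_down hD) hD' Nb_subset hfin')
        SemidirectProduct.inl_injective t1 t3 t2

theorem typeF_QP (n : ℕ) {D : Set Q.P} (hD : DownClosed Q D) (hfin : D.Finite)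
    (hF : ∀ S ∈ D, TypeF n (Q.Factor S)) : TypeF n (QP Q D) :=
  typeF_QP_aux _ n D hD hfin rfl hF

theorem univ_down : DownClosed Q (Set.univ : Set Q.P) := fun _ _ _ _ => trivial

/-- the map from the quandle product to the presented version -/
noncomputable def toQP (Q : QuandleSystem 𝕊) : Q.Product →* QP Q Set.univ :=
  QuotientGroup.lift _ (Monoid.CoprodI.lift (fun S => elHom (Set.univ : Set Q.P) S)) (by
    have h : Subgroup.normalClosure Q.relators ≤
        (Monoid.CoprodI.lift (fun S => elHom (Set.univ : Set Q.P) S)).ker := by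
      apply Subgroup.normalClosure_le_normal
      rintro w (⟨g, h, hgh, rfl⟩ | ⟨g, h, hgh, rfl⟩)
      · show (Monoid.CoprodI.lift (fun S => elHom (Set.univ : Set Q.P) S)) _ = 1
        unfold relator FactorSystem.emb
        rw [map_mul, map_inv, map_mul, map_mul, Monoid.CoprodI.lift_of, Monoid.CoprodI.lift_of,
          mul_inv_eq_one]
        exact el_comm (D := Set.univ) (x := g) (y := h) trivial trivial hgh
      · show (Monoid.CoprodI.lift (fun S => elHom (Set.univ : Set Q.P) S)) _ = 1
        unfold relator FactorSystem.emb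
        rw [map_mul, map_inv, map_mul, map_mul, Monoid.CoprodI.lift_of, Monoid.CoprodI.lift_of,
          Monoid.CoprodI.lift_of, mul_inv_eq_one]
        exact el_star (D := Set.univ) (x := g) (y := h) trivial trivial hgh
    exact fun x hx => h hx)

/-- the inverse map -/
noncomputable def fromQP (Q : QuandleSystem 𝕊) : QP Q Set.univ →* Q.Product :=
  lift' univ_down (fun x => QuotientGroup.mk' _ (Monoid.CoprodI.of x.2))
    (by
      intro S _ g h
      simp only [map_mul])
    (by
      intro x y _ _ hxy
      rw [← map_mul, ← map_mul, ← mul_inv_eq_one, ← map_inv, ← map_mul, QuotientGroup.mk'_apply,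
        QuotientGroup.eq_one_iff]
      exact Subgroup.subset_normalClosure (Or.inl ⟨x, y, hxy, rfl⟩))
    (by
      intro x y _ _ hxy
      rw [← map_mul, ← map_mul, ← mul_inv_eq_one, ← map_inv, ← map_mul, QuotientGroup.mk'_apply,
        QuotientGroup.eq_one_iff]
      exact Subgroup.subset_normalClosure (Or.inr ⟨x, y, hxy, rfl⟩))

/-- the quandle product is the presented group -/
noncomputable def productEquiv (Q : QuandleSystem 𝕊) : QP Q Set.univ ≃* Q.Product :=
  MonoidHom.toMulEquiv (fromQP Q) (toQP Q)
    (by
      apply hom_ext'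
      intro x hx
      rw [MonoidHom.comp_apply]
      unfold fromQP
      rw [lift'_el _ _ _ _ _ _ hx]
      show (Monoid.CoprodI.lift (fun S => elHom (Set.univ : Set Q.P) S)) (Monoid.CoprodI.of x.2) = _
      rw [Monoid.CoprodI.lift_of]
      rfl)
    (by
      apply QuotientGroup.monoidHom_ext
      apply Monoid.CoprodI.ext_hom
      intro S
      ext1 g
      show fromQP Q (toQP Q (QuotientGroup.mk' _ (Monoid.CoprodI.of g))) =
        QuotientGroup.mk' _ (Monoid.CoprodI.of g)
      have h1 : toQP Q (QuotientGroup.mk' _ (Monoid.CoprodI.of g)) = el Set.univ ⟨S, g⟩ := by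
        show (Monoid.CoprodI.lift (fun S => elHom (Set.univ : Set Q.P) S)) (Monoid.CoprodI.of g) = _
        rw [Monoid.CoprodI.lift_of]
        rfl
      rw [h1]
      unfold fromQP
      rw [lift'_el _ _ _ _ _ _ (Set.mem_univ _)])

/-- Quandle products of finitely many groups of type `F_n` are of type `F_n`. -/
theorem typeF_product (Q : QuandleSystem 𝕊) (hfin : Q.P.Finite) (n : ℕ)
    (hF : ∀ S, TypeF n (Q.Factor S)) : TypeF n Q.Product := by
  have : Finite Q.P := hfin
  exact (typeF_QP n univ_down Set.finite_univ (fun S _ => hF S)).equiv (productEquiv Q)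

end Pool.Agent.QProd
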