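import Mathlib
import Pool.Agent.QProd.FTypeDef
import Pool.Agent.QProd.Main

set_option autoImplicit false

namespace Pool.Agent.FType

universe u v

theorem isFP_iff {R : Type u} [Ring R] (n : ℕ) {M : Type v} [AddCommGroup M] [Module R M] :
    IsFP R n M ↔ QProd.IsFP R n M := by
  constructor
  · rintro ⟨s, h1, h2, h3⟩
    exact ⟨s.k, s.e, s.d, h1, h2, h3⟩
  · rintro ⟨k, e, d, h1, h2, h3⟩
    exact ⟨⟨k, e, d⟩, h1, h2, h3⟩

theorem typeF_iff (n : ℕ) (G : Type u) [Group G] : TypeF n G ↔ QProd.TypeF n G := by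
  match n with
  | 0 => exact Iff.rfl
  | 1 => exact Iff.rfl
  | n + 2 => exact and_congr Iff.rfl (isFP_iff (n + 2))

/-- Quandle products of finitely many groups of type `F_n` are of type `F_n`. -/
theorem typeF_product {𝕊 : Type u} (Q : QProd.QuandleSystem 𝕊) (hfin : Q.P.Finite) (n : ℕ)
    (hF : ∀ S, TypeF n (Q.Factor S)) : TypeF n Q.Product :=
  (typeF_iff n _).mpr (QProd.typeF_product Q hfin n (fun S => (typeF_iff n _).mp (hF S)))

end Pool.Agent.FType
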